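import Mathlib

namespace Pool.Agent.P.MP_bb0bfc_al.UP

section PCs
variable {G : Type} [Group G]

/-- `PC s g`: `g` is a product of conjugates of the entries of `s`, in order. -/
def PC : List G → G → Prop
  | [], g => g = 1
  | a :: s, g => ∃ c h, PC s h ∧ g = c * a * c⁻¹ * h

theorem PC.conj : ∀ {s : List G} {g : G}, PC s g → ∀ c, PC s (c * g * c⁻¹)
  | [], g, h, c => by
      have h' : g = 1 := h
      show c * g * c⁻¹ = 1
      rw [h']; group
  | a :: s, g, ⟨d, k, hk, e⟩, c => ⟨c * d, c * k * c⁻¹, hk.conj c, by rw [e]; group⟩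

theorem PC.perm {s s' : List G} (p : s.Perm s') : ∀ {g : G}, PC s g → PC s' g := by
  induction p with
  | nil => exact fun h => h
  | cons a _ ih => exact fun ⟨c, k, hk, e⟩ => ⟨c, k, ih hk, e⟩
  | swap a b s =>
      rintro g ⟨c, k, ⟨d, m, hm, e'⟩, e⟩
      exact ⟨c * b * c⁻¹ * d, c * b * c⁻¹ * m, ⟨c, m, hm, rfl⟩, by rw [e, e']; group⟩
  | trans _ _ ih1 ih2 => exact fun h => ih2 (ih1 h)

theorem PC.prod : ∀ s : List G, PC s s.prod
  | [] => rfl
  | a :: s => ⟨1, s.prod, PC.prod s, by simp⟩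

theorem PC.one_cons {s : List G} {g : G} (h : PC (1 :: s) g) : PC s g := by
  obtain ⟨c, k, hk, e⟩ := h
  have : g = k := by rw [e]; group
  rwa [this]

theorem PC.head {s : List G} {a g : G} (c : G) (h : PC ((c * a * c⁻¹) :: s) g) : PC (a :: s) g := by
  obtain ⟨d, k, hk, e⟩ := h
  exact ⟨d * c, k, hk, by rw [e]; group⟩

theorem PC.append : ∀ {s s' : List G} {g g' : G}, PC s g → PC s' g' → PC (s ++ s') (g * g')
  | [], s', g, g', h, h' => by
      have e : g = 1 := h
      simpa [e] using h'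
  | a :: s, s', g, g', ⟨c, k, hk, e⟩, h' =>
      ⟨c, k * g', hk.append h', by rw [e]; group⟩

theorem PC.all_one : ∀ {s : List G} {g : G}, PC s g → (∀ a ∈ s, a = 1) → g = 1
  | [], _, h, _ => h
  | a :: s, g, ⟨c, k, hk, e⟩, h1 => by
      rw [e, h1 a (by simp), hk.all_one fun b hb => h1 b (by simp [hb])]; group

theorem PC.head_one {s : List G} {a : G} (h : PC (a :: s) 1) (h1 : ∀ b ∈ s, b = 1) : a = 1 := by
  obtain ⟨c, k, hk, e⟩ := h
  rw [hk.all_one h1] at e
  have : a = c⁻¹ * (c * a * c⁻¹ * 1) * c := by group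
  rw [this, ← e]; group

end PCs

section Cox
variable {ι : Type} [DecidableEq ι]

/-- reduced words -/
def RW (ι : Type) : Type := {l : List ι // l.IsChain (· ≠ ·)}

def act (x : ι) : RW ι → RW ι
  | ⟨[], _⟩ => ⟨[x], List.isChain_singleton x⟩
  | ⟨y :: m, h⟩ => if e : y = x then ⟨m, h.tail⟩ else
      ⟨x :: y :: m, List.isChain_cons_cons.2 ⟨fun e' => e e'.symm, h⟩⟩

theorem act_same (x : ι) (m : List ι) (h : (x :: m).IsChain (· ≠ ·)) :
    act x ⟨x :: m, h⟩ = ⟨m, h.tail⟩ := by simp [act]

theorem act_new (x : ι) (m : List ι) (h : (x :: m).IsChain (· ≠ ·)) :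
    act x ⟨m, h.tail⟩ = ⟨x :: m, h⟩ := by
  cases m with
  | nil => rfl
  | cons y m =>
      have : y ≠ x := (List.isChain_cons_cons.1 h).1.symm
      simp [act, this]

theorem act_inv (x : ι) : Function.Involutive (act x) := by
  rintro ⟨l, h⟩
  cases l with
  | nil => exact act_same x [] _
  | cons y m =>
      by_cases e : y = x
      · subst e
        rw [act_same, act_new]
      · have h' : (x :: y :: m).IsChain (· ≠ ·) :=
          List.isChain_cons_cons.2 ⟨fun e' => e e'.symm, h⟩
        have := act_new x (y :: m) h'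
        rw [this, act_same]

/-- the free product of groups of order two, as a group of permutations of reduced words -/
def W (ι : Type) [DecidableEq ι] : Subgroup (Equiv.Perm (RW ι)) :=
  Subgroup.closure (Set.range fun x : ι => (act_inv x).toPerm)

def gen (x : ι) : W ι := ⟨(act_inv x).toPerm, Subgroup.subset_closure ⟨x, rfl⟩⟩

theorem gen_mul (x : ι) : gen x * gen x = 1 := by
  apply Subtype.ext
  ext l : 1
  exact act_inv x l

theorem gen_inv (x : ι) : (gen x)⁻¹ = gen x := inv_eq_of_mul_eq_one_right (gen_mul x)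

def ev (l : List ι) : W ι := (l.map gen).prod

@[simp] theorem ev_nil : ev ([] : List ι) = 1 := rfl
theorem ev_cons (x : ι) (l : List ι) : ev (x :: l) = gen x * ev l := by simp [ev]
theorem ev_append (l m : List ι) : ev (l ++ m) = ev l * ev m := by simp [ev]
theorem ev_single (x : ι) : ev [x] = gen x := by simp [ev]

theorem ev_reverse (l : List ι) : ev l.reverse = (ev l)⁻¹ := by
  induction l with
  | nil => simp
  | cons x l ih => rw [List.reverse_cons, ev_append, ih, ev_single, ev_cons, mul_inv_rev, gen_inv]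

theorem ev_surj (g : W ι) : ∃ l, ev l = g := by
  obtain ⟨g, hg⟩ := g
  induction hg using Subgroup.closure_induction with
  | mem x hx => obtain ⟨y, rfl⟩ := hx; exact ⟨[y], ev_single y⟩
  | one => exact ⟨[], rfl⟩
  | mul a b _ _ ha hb =>
      obtain ⟨l, hl⟩ := ha
      obtain ⟨m, hm⟩ := hb
      exact ⟨l ++ m, by rw [ev_append, hl, hm]; rfl⟩
  | inv a _ ha =>
      obtain ⟨l, hl⟩ := ha
      exact ⟨l.reverse, by rw [ev_reverse, hl]; rfl⟩

theorem ev_apply : ∀ (l : List ι) (h : l.IsChain (· ≠ ·)),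
    (ev l : Equiv.Perm (RW ι)) ⟨[], List.isChain_nil⟩ = ⟨l, h⟩
  | [], _ => rfl
  | x :: l, h => by
      rw [ev_cons, Subgroup.coe_mul, Equiv.Perm.mul_apply, ev_apply l h.tail]
      exact act_new x l h

theorem ev_split {D : Type} (lab : D → ι) (L : List D) (h : ev (L.map lab) = 1) (hn : L ≠ []) :
    ∃ A p q B, L = A ++ p :: q :: B ∧ lab p = lab q := by
  by_contra hc
  have hch : (L.map lab).IsChain (· ≠ ·) := by
    rw [List.isChain_map, List.isChain_iff_forall_rel_of_append_cons_cons]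
    intro p q A B e he
    exact hc ⟨A, p, q, B, e, he⟩
  have := ev_apply _ hch
  rw [h] at this
  have e : ([] : List ι) = L.map lab := congrArg Subtype.val this
  exact hn (List.map_eq_nil_iff.1 e.symm)

end Cox

end Pool.Agent.P.MP_bb0bfc_al.UP
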