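import Pool.Agent.P.MP_bb0bfc_al.UP.Level

namespace Pool.Agent.P.MP_bb0bfc_al.UP

def T.isw : T → ℕ
  | .ww => 1
  | _ => 0

def T.isc : T → ℕ
  | .cell _ _ => 1
  | _ => 0

def T.frl : T → ℕ
  | .fr g => g.length
  | _ => 0

theorem hole_prod {h : ℕ → T} {j : ℕ} {g : List (Fin 4)} {ε : Bool} (e : h j = .cell g ε)
    {A B : List Z} {z : Z} (hb : base (.cell g false) = A ++ z :: B) (t : DD → W (Fin 4))
    (ht : ∀ z', z' ≠ z → t (j, z') = gen (lab h (j, z'))) :
    ((hole h j).map t).prod =
      if ε then (ev (B.map (zlab (.cell g false))))⁻¹ * t (j, z) *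
          (ev (A.map (zlab (.cell g false))))⁻¹
        else ev (A.map (zlab (.cell g false))) * t (j, z) * ev (B.map (zlab (.cell g false))) := by
  have hn := nodup_base (.cell g false)
  rw [hb] at hn
  have key : ∀ l : List Z, z ∉ l →
      ((l.map fun z => ((j, z) : DD)).map t).prod = ev (l.map (zlab (.cell g false))) := by
    intro l hl
    rw [ev, List.map_map, List.map_map]
    congr 1
    apply List.map_congr_left
    intro z' hz'
    simp only [Function.comp]
    rw [ht z' fun k => hl (k ▸ hz'), lab, e]
    rfl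
  have hA : z ∉ A := fun k => (List.nodup_append.1 hn).2.2 z k z (by simp) rfl
  have hB : z ∉ B := (List.nodup_cons.1 (List.nodup_append.1 hn).2.1).1
  have hb' : base (.cell g ε) = A ++ z :: B := hb
  unfold hole L0
  rw [e, hb']
  cases ε
  · simp only [T.eps, Bool.false_eq_true, if_false, List.map_append, List.map_cons,
      List.prod_append, List.prod_cons]
    rw [key A hA, key B hB, mul_assoc]
  · simp only [T.eps, if_true, List.reverse_append, List.reverse_cons, List.map_append,
      List.map_cons, List.prod_append, List.prod_cons, List.map_nil, List.prod_nil, mul_one]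
    rw [key _ (by simpa using hB), key _ (by simpa using hA), List.map_reverse, List.map_reverse,
      ev_reverse, ev_reverse]

theorem mirror {n : ℕ} {h : ℕ → T} {α : DD → DD} (hm : Mt (HH n h).flatten α)
    (hl : ∀ d ∈ (HH n h).flatten, lab h (α d) = lab h d) (hp : Pl (HH n h) α) {i r s : ℕ}
    (hi : i < n) (hr : r < (h i).q) (hs : s < (h i).K) (a : Al n h α i r s)
    (hne : (h (α (i, r, s, 0)).1).eps ≠ (h i).eps) :
    ∃ h' : ℕ → T, PC ((List.range n).map fun j => wd (h' j)) 1 ∧
      (∀ j, (h' j).isw = (h j).isw ∧ (h' j).frl = (h j).frl ∧ (h' j).isc ≤ (h j).isc) ∧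
      (h' i).isc < (h i).isc := by
  have hq := a.q_eq hr
  obtain ⟨i', r', e, hi', hr', -, t1, t2, t3⟩ := a
  rw [e] at hne
  simp only at hne
  obtain ⟨g, ε, eg⟩ : ∃ g ε, h i = .cell g ε := by
    revert hq; cases h i <;> simp [T.q]
  obtain ⟨ε', eg'⟩ : ∃ ε', h i' = .cell g ε' := by
    rw [eg] at t1
    revert t1; cases h i' <;> simp [T.tag]
  have hε : ε' = !ε := by
    rw [eg, eg'] at hne
    revert hne; cases ε <;> cases ε' <;> simp [T.eps]
  subst hε
  have hii : i' ≠ i := fun k => hne (by rw [k])
  have hrr : r' = r := by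
    have := (h i').q_le
    apply same_eq (by omega) (by omega) t2
    rw [eg, eg'] at t3
    revert t3
    unfold dir
    cases bwd r' <;> cases bwd r <;> cases ε <;> simp [T.eps]
  subst hrr
  have hz : ((r', s, 0) : Z) ∈ base (h i) := mem_base.2 (Or.inr ⟨hr, hs, by simp⟩)
  have kx := hm.2 (i, r', s, 0) (mem_HH.2 ⟨hi, hz⟩)
  obtain ⟨A, B, hb⟩ := List.append_of_mem hz
  rw [eg] at hb
  have hb0 : base (.cell g false) = A ++ (r', s, 0) :: B := hb
  set U := ev (A.map (zlab (.cell g false)))
  set V := ev (B.map (zlab (.cell g false)))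
  let a : W (Fin 4) := if ε then V * U else U⁻¹ * V⁻¹
  let t : DD → W (Fin 4) := upd (fun d => gen (lab h d)) (i, r', s, 0) (i', r', s, 0) a a⁻¹
  have hxx : ((i', r', s, 0) : DD) ≠ (i, r', s, 0) := by simp [hii]
  have := hp _ t (by
    intro d hd
    have kd := hm.2 d hd
    by_cases k1 : d = (i, r', s, 0)
    · subst k1; simp only [t]; rw [e, upd_x, upd_y _ hxx]
    by_cases k2 : d = (i', r', s, 0)
    · subst k2; simp only [t]; rw [← e, kx.2.2, upd_x, e, upd_y _ hxx, inv_inv]
    simp only [t]
    rw [upd_o _ k1 k2, upd_o, hl d hd, gen_inv]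
    · exact fun k => k2 (by rw [← kd.2.2, k, e])
    · exact fun k => k1 (by rw [← kd.2.2, k, ← e, kx.2.2]))
  refine ⟨upd h i i' (.fr []) (.fr []), ?_, fun j => ?_, ?_⟩
  · rw [HH, List.map_map] at this
    convert this using 1
    apply List.map_congr_left
    intro j _
    simp only [Function.comp]
    by_cases k1 : j = i
    · subst k1
      rw [upd_x, wd_fr, ev_nil, hole_prod eg hb0 t fun z' hz' =>
        upd_o _ (by simp [hz']) (by simp [hii.symm]) _ _]
      simp only [t]
      rw [upd_x]
      cases ε <;> simp [a, U, V]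
    by_cases k2 : j = i'
    · subst k2
      rw [upd_y _ hii, wd_fr, ev_nil, hole_prod eg' hb0 t fun z' hz' =>
        upd_o _ (by simp [hii]) (by simp [hz']) _ _]
      simp only [t]
      rw [upd_y _ hxx]
      cases ε <;> simp [a, U, V]
    rw [upd_o _ k1 k2, wd, ev, hole, List.map_map, List.map_map]
    congr 1
    apply List.map_congr_left
    intro z _
    simp only [Function.comp, t]
    rw [upd_o _ (by simp [k1]) (by simp [k2])]
    rfl
  · by_cases k1 : j = i
    · subst k1; rw [upd_x, eg]; simp [T.isw, T.frl, T.isc]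
    by_cases k2 : j = i'
    · subst k2; rw [upd_y _ hii, eg']; simp [T.isw, T.frl, T.isc]
    rw [upd_o _ k1 k2]; simp
  · rw [upd_x, eg]; simp [T.isc]

theorem core : ∀ (m n : ℕ) (h : ℕ → T), ∑ i ∈ Finset.range n, (h i).isc = m →
    PC ((List.range n).map fun j => wd (h j)) 1 →
    ∑ i ∈ Finset.range n, (h i).isw ≤ ∑ i ∈ Finset.range n, (h i).frl := by
  classical
  intro m
  induction m using Nat.strong_induction_on with
  | _ m ih =>
  intro n h hm hpc
  obtain ⟨α, hα, hl, hp⟩ := lift (HH n h) (lab h) (nodup_HH n h) (by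
    rw [HH, List.map_map]
    convert hpc using 1
    apply List.map_congr_left
    intro j _
    simp only [Function.comp, wd, hole, List.map_map]
    rfl)
  by_cases hmir : ∀ s i r, i < n → r < (h i).q → s < (h i).K → Al n h α i r s →
      (h (α (i, r, s, 0)).1).eps = (h i).eps
  swap
  · push Not at hmir
    obtain ⟨s, i, r, hi, hr, hs, a, hne⟩ := hmir
    obtain ⟨h', p1, p2, p3⟩ := mirror hα hl hp hi hr hs a hne
    have := ih _ (hm ▸ Finset.sum_lt_sum (fun j _ => (p2 j).2.2) ⟨i, Finset.mem_range.2 hi, p3⟩)
      n h' rfl p1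
    simpa only [fun j => (p2 j).1, fun j => (p2 j).2.1] using this
  set KK := ∑ i ∈ Finset.range n, (h i).K with hKK
  let BP := (Finset.range n ×ˢ Finset.range KK).filter fun x : ℕ × ℕ =>
    x.2 < (h x.1).K ∧ ∃ r < (h x.1).q, ¬ Al n h α x.1 r x.2
  have h1 := count_one hα hl hp BP (by
      intro x hx
      obtain ⟨k1, k2⟩ := Finset.mem_filter.1 hx
      exact ⟨Finset.mem_range.1 (Finset.mem_product.1 k1).1, k2⟩)
  have h2 : KK ≤ 20 * BP.card := by
    rw [Finset.card_filter, Finset.sum_product_right, Finset.mul_sum]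
    calc KK = ∑ i ∈ Finset.range n, ∑ s ∈ Finset.range KK, if s < (h i).K then 1 else 0 := by
          apply Finset.sum_congr rfl
          intro i hi
          have : (h i).K ≤ KK := Finset.single_le_sum (f := fun i => (h i).K)
            (fun _ _ => Nat.zero_le _) hi
          rw [← Finset.card_filter, ← Finset.card_range (h i).K]
          congr 1
          ext s
          simp only [Finset.mem_range, Finset.mem_filter, Finset.card_range]
          omega
      _ = ∑ s ∈ Finset.range KK, ((Finset.range n).filter fun i => s < (h i).K).card := by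
          rw [Finset.sum_comm]
          simp only [Finset.card_filter]
      _ ≤ _ := by
          apply Finset.sum_le_sum
          intro s _
          have := count_two hα hp s (hmir s)
          rw [Finset.card_filter (s := Finset.range n)
            (p := fun i => s < (h i).K ∧ ∃ r < (h i).q, ¬ Al n h α i r s)] at this
          refine this.trans (le_of_eq ?_)
          congr 1
  have h3 := card_Zs n h
  rw [HH, countP_range] at h1
  have h4 : ∑ i ∈ Finset.range n, (200 * (h i).isw +
      120 * (if decide (hole h i ≠ []) then 1 else 0) +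
        80 * ((h i).free.length + 2 * (h i).q)) ≤
      ∑ i ∈ Finset.range n, ((h i).K + 200 * (h i).frl) := by
    apply Finset.sum_le_sum
    intro i _
    cases e : h i with
    | fr g =>
        simp only [T.isw, T.free, T.q, T.K, T.frl]
        split_ifs with k
        · have : g ≠ [] := by
            rintro rfl
            simp [hole, e, L0, base, T.eps, T.free, T.q] at k
          have := List.length_pos_iff.2 this
          omega
        · omega
    | ww => simp only [T.isw, T.free, T.q, T.K, T.frl]; split_ifs <;> simp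
    | cell g ε => simp only [T.isw, T.free, T.q, T.K, T.frl]; split_ifs <;> omega
  simp only [Finset.sum_add_distrib, ← Finset.mul_sum] at h4 h3
  omega

theorem core_list (ts : List T) (h : PC (ts.map wd) 1) :
    (ts.map T.isw).sum ≤ (ts.map T.frl).sum := by
  have e : ∀ {β : Type} (F : T → β),
      ((List.range ts.length).map fun j => F (ts.getD j .ww)) = ts.map F := by
    intro β F
    apply List.ext_getElem <;> simp
    intro i hi; simp [hi]
  have := core _ ts.length (fun j => ts.getD j .ww) rfl (by rwa [e wd])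
  have e2 : ∀ (F : ℕ → ℕ) (n : ℕ), ∑ i ∈ Finset.range n, F i = ((List.range n).map F).sum :=
    fun F n => rfl
  rwa [e2, e2, e T.isw, e T.frl] at this

end Pool.Agent.P.MP_bb0bfc_al.UP
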