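import Pool.Agent.P.MP_bb0bfc_al.UP.Words

namespace Pool.Agent.P.MP_bb0bfc_al.UP

abbrev DD : Type := ℕ × Z

def hole (h : ℕ → T) (i : ℕ) : List DD := (L0 (h i)).map fun z => (i, z)
def HH (n : ℕ) (h : ℕ → T) : List (List DD) := (List.range n).map (hole h)
def lab (h : ℕ → T) (d : DD) : Fin 4 := zlab (h d.1) d.2

theorem mem_hole {h : ℕ → T} {i : ℕ} {d : DD} : d ∈ hole h i ↔ d.1 = i ∧ d.2 ∈ base (h i) := by
  obtain ⟨a, z⟩ := d
  simp only [hole, List.mem_map, Prod.mk.injEq, mem_L0]
  constructor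
  · rintro ⟨z', h1, rfl, rfl⟩; exact ⟨rfl, h1⟩
  · rintro ⟨rfl, h1⟩; exact ⟨z, h1, rfl, rfl⟩

theorem mem_HH {n : ℕ} {h : ℕ → T} {d : DD} :
    d ∈ (HH n h).flatten ↔ d.1 < n ∧ d.2 ∈ base (h d.1) := by
  simp only [HH, List.mem_flatten, List.mem_map, List.mem_range]
  constructor
  · rintro ⟨l, ⟨i, hi, rfl⟩, hd⟩
    obtain ⟨rfl, h2⟩ := mem_hole.1 hd
    exact ⟨hi, h2⟩
  · rintro ⟨h1, h2⟩
    exact ⟨_, ⟨_, h1, rfl⟩, mem_hole.2 ⟨rfl, h2⟩⟩

theorem nodup_hole (h : ℕ → T) (i : ℕ) : (hole h i).Nodup :=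
  (nodup_L0 _).map fun a b e => by simpa using e

theorem nodup_HH (n : ℕ) (h : ℕ → T) : (HH n h).flatten.Nodup := by
  unfold HH
  rw [← List.flatMap_def, List.nodup_flatMap]
  refine ⟨fun i _ => nodup_hole h i, List.nodup_range.imp fun {a b} hab => ?_⟩
  intro z h1 h2
  exact hab ((mem_hole.1 h1).1.symm.trans (mem_hole.1 h2).1)

section
variable {D : Type} [DecidableEq D]

theorem infix_C {H : List (List D)} {l : List D} (hl : l ∈ H) (hn : l.Nodup) {x y : D}
    (h : [x, y] <:+: l) : C H x y := by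
  obtain ⟨u, v, rfl⟩ := h
  refine ⟨_, hl, by simp, ?_⟩
  have e : (u ++ [x, y] ++ v).rotate u.length = x :: y :: (v ++ u) := by
    rw [List.append_assoc, List.rotate_append_length_eq]; simp
  rw [← List.formPerm_rotate _ hn u.length, e]
  exact List.formPerm_apply_head _ _ _ (e ▸ List.nodup_rotate.2 hn)

def Cd (H : List (List D)) (b : Bool) (x y : D) : Prop := if b then C H y x else C H x y

theorem Cd.func {H : List (List D)} (h : H.flatten.Nodup) {b : Bool} {x y y' : D}
    (a : Cd H b x y) (c : Cd H b x y') : y = y' := by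
  cases b
  · exact C.func h a c
  · exact C.inj h a c

theorem Cd.flip {H : List (List D)} {b : Bool} {x y : D} (a : Cd H b x y) : Cd H (!b) y x := by
  cases b <;> exact a

theorem Cd.inj {H : List (List D)} (h : H.flatten.Nodup) {b : Bool} {x x' y : D}
    (a : Cd H b x y) (c : Cd H b x' y) : x = x' := a.flip.func h c.flip

end

theorem adj_Cd {n : ℕ} {h : ℕ → T} {i r : ℕ} {x y : Z} (hi : i < n) (hr : r < (h i).q)
    (a : [x, y] <:+: fw (h i) r (h i).K) : Cd (HH n h) (dir (h i) r) (i, x) (i, y) := by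
  have := (adj_L0 hr a).map fun z => ((i, z) : DD)
  have hl : hole h i ∈ HH n h := List.mem_map_of_mem (List.mem_range.2 hi)
  unfold Cd
  split_ifs at this ⊢ <;> exact infix_C hl (nodup_hole h i) this

theorem lab_eq {h : ℕ → T} {i r : ℕ} (hr : r < (h i).q) (s o : ℕ) :
    lab h (i, r, s, o) = blab (ex (h i) r s) o := by
  have := (h i).q_le
  have : r ≠ 8 := by omega
  simp [lab, zlab, this]

/-- the block `(i, r, s)` is matched with a block of the same name -/
def Al (n : ℕ) (h : ℕ → T) (α : DD → DD) (i r s : ℕ) : Prop :=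
  ∃ i' r', α (i, r, s, 0) = (i', r', s, 0) ∧ i' < n ∧ r' < (h i').q ∧ s < (h i').K ∧
    (h i').tag = (h i).tag ∧ nm r' = nm r ∧ dir (h i') r' = !dir (h i) r

theorem good {n : ℕ} {h : ℕ → T} {α : DD → DD} (hm : Mt (HH n h).flatten α)
    (hl : ∀ d ∈ (HH n h).flatten, lab h (α d) = lab h d) {i r s : ℕ} (hi : i < n)
    (hr : r < (h i).q) (hs : s < (h i).K)
    (hb : ∀ o < ex (h i) r s + 2, ∀ y, C (HH n h) (i, r, s, o) y →
      C (HH n h) (α y) (α (i, r, s, o)))
    (hf : (α (i, r, s, 1)).2.1 ≠ 8) : Al n h α i r s := by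
  have hn := hm.1
  have he : 1 ≤ ex (h i) r s := Nat.le_add_left _ _
  have hx : ∀ o < ex (h i) r s + 2, ((i, r, s, o) : DD) ∈ (HH n h).flatten := fun o ho =>
    mem_HH.2 ⟨hi, mem_base.2 (Or.inr ⟨hr, hs, ho⟩)⟩
  have hy : ∀ o < ex (h i) r s + 2, lab h (α (i, r, s, o)) = blab (ex (h i) r s) o :=
    fun o ho => by rw [hl _ (hx o ho), lab_eq hr]
  have hc : ∀ o < ex (h i) r s + 1,
      Cd (HH n h) (!dir (h i) r) (α (i, r, s, o)) (α (i, r, s, o + 1)) := by
    intro o ho
    have := adj_Cd hi hr (adj_in hs ho)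
    cases hd : dir (h i) r <;> rw [hd] at this
    · exact hb o (by omega) _ this
    · exact hb (o + 1) (by omega) _ this
  obtain ⟨⟨i', r', s', o'⟩, e1⟩ : ∃ y, α (i, r, s, 1) = y := ⟨_, rfl⟩
  have m1 := mem_HH.1 (hm.2 _ (hx 1 (by omega))).1
  rw [e1] at m1 hf
  obtain ⟨hi', m1⟩ := m1
  obtain ⟨hr', hs', ho'⟩ := (mem_base.1 m1).resolve_left fun k => hf k.1
  simp only at hi' hr' hs' ho'
  have l1 := hy 1 (by omega)
  rw [e1, lab_eq hr'] at l1
  have o1 : o' ≠ 0 := fun k => by
    have := blab_two.1 (l1.symm.trans (blab_two.2 k)); omega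
  have o2 : o' ≠ ex (h i') r' s' + 1 := fun k => by
    have := blab_three.1 (l1.symm.trans (blab_three.2 k)); omega
  have c0 := hc 0 (by omega)
  have l0 := hy 0 (by omega)
  rw [zero_add, e1] at c0
  have hd : dir (h i') r' = !dir (h i) r := by
    by_contra k
    have k' : dir (h i') r' = dir (h i) r := by
      revert k; cases dir (h i') r' <;> cases dir (h i) r <;> simp
    have := (adj_Cd hi' hr' (adj_in (o := o') hs' (by omega))).flip
    rw [k'] at this
    rw [c0.inj hn this, lab_eq hr', blab_two.2 rfl] at l0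
    have := blab_two.1 l0
    omega
  obtain ⟨o'', rfl⟩ : ∃ o'', o' = o'' + 1 := ⟨o' - 1, by omega⟩
  have e0 : α (i, r, s, 0) = (i', r', s', o'') := by
    have := adj_Cd hi' hr' (adj_in (o := o'') hs' (by omega))
    rw [hd] at this
    exact c0.inj hn this
  have : o'' = 0 := by
    rw [e0, lab_eq hr', blab_two.2 rfl] at l0
    exact blab_two.1 l0
  subst this
  have all : ∀ o, o < ex (h i) r s + 2 → o < ex (h i') r' s' + 2 →
      α (i, r, s, o) = (i', r', s', o) := by
    intro o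
    induction o with
    | zero => exact fun _ _ => e0
    | succ o ih =>
        intro k1 k2
        have a1 := hc o (by omega)
        rw [ih (by omega) (by omega)] at a1
        have a2 := adj_Cd hi' hr' (adj_in (o := o) hs' (by omega))
        rw [hd] at a2
        exact a1.func hn a2
  have ee : ex (h i') r' s' = ex (h i) r s := by
    rcases le_total (ex (h i') r' s') (ex (h i) r s) with k | k
    · have := hy (ex (h i') r' s' + 1) (by omega)
      rw [all _ (by omega) (by omega), lab_eq hr', blab_three.2 rfl] at this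
      have := blab_three.1 this.symm
      omega
    · have := hy (ex (h i) r s + 1) (by omega)
      rw [all _ (by omega) (by omega), lab_eq hr', (blab_three (e := ex (h i) r s)).2 rfl] at this
      have := blab_three.1 this
      omega
  obtain ⟨t1, t2, rfl⟩ := ex_inj ee
  exact ⟨i', r', e0, hi', hr', hs', t1, t2, hd⟩

/-- exceptional darts -/
def Zs (n : ℕ) (h : ℕ → T) : Finset DD :=
  (Finset.range n).biUnion fun i =>
    ((Finset.range (h i).free.length).image fun o => (i, 8, 0, o)) ∪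
      (((Finset.range (h i).q).image fun r => (i, r, 0, 0)) ∪
        (Finset.range (h i).q).image fun r =>
          (i, r, (h i).K - 1, ex (h i) r ((h i).K - 1) + 1))

theorem card_Zs (n : ℕ) (h : ℕ → T) :
    (Zs n h).card ≤ ∑ i ∈ Finset.range n, ((h i).free.length + 2 * (h i).q) := by
  refine Finset.card_biUnion_le.trans (Finset.sum_le_sum fun i _ => ?_)
  refine (Finset.card_union_le _ _).trans (add_le_add (Finset.card_image_le.trans (by simp)) ?_)
  refine (Finset.card_union_le _ _).trans ?_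
  rw [two_mul]
  exact add_le_add (Finset.card_image_le.trans (by simp)) (Finset.card_image_le.trans (by simp))

theorem free_Zs {n : ℕ} {h : ℕ → T} {d : DD} (hd : d ∈ (HH n h).flatten) (h8 : d.2.1 = 8) :
    d ∈ Zs n h := by
  obtain ⟨i, r, s, o⟩ := d
  obtain ⟨hi, m⟩ := mem_HH.1 hd
  have := (h i).q_le
  obtain ⟨rfl, rfl, ho⟩ := (mem_base.1 m).resolve_right fun k => by
    simp only at k h8; omega
  simp only [Zs, Finset.mem_biUnion, Finset.mem_range, Finset.mem_union, Finset.mem_image]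
  exact ⟨i, hi, Or.inl ⟨o, ho, rfl⟩⟩

theorem mono_Zs {n : ℕ} {h : ℕ → T} {α : DD → DD}
    (hl : ∀ d ∈ (HH n h).flatten, lab h (α d) = lab h d) (x : DD) (a : C (HH n h) x (α x)) :
    x ∈ Zs n h := by
  have hn := nodup_HH n h
  by_cases h8 : x.2.1 = 8
  · exact free_Zs a.mem.1 h8
  have l := hl x a.mem.1
  obtain ⟨i, r, s, o⟩ := x
  obtain ⟨hi, m⟩ := mem_HH.1 a.mem.1
  obtain ⟨hr, hs, ho⟩ := (mem_base.1 m).resolve_left fun k => h8 k.1
  simp only at hi hr hs ho
  simp only [Zs, Finset.mem_biUnion, Finset.mem_range, Finset.mem_union, Finset.mem_image]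
  refine ⟨i, hi, Or.inr ?_⟩
  cases hd : dir (h i) r
  · right
    refine ⟨r, hr, ?_⟩
    have o1 : o = ex (h i) r s + 1 := by
      by_contra k
      have := adj_Cd hi hr (adj_in (o := o) hs (by omega))
      rw [hd] at this
      rw [a.func hn this, lab_eq hr, lab_eq hr] at l
      exact blab_ne (by omega) l.symm
    subst o1
    have s1 : (h i).K - 1 = s := by
      by_contra k
      have := adj_Cd hi hr (adj_jn (s := s) (by omega))
      rw [hd] at this
      rw [a.func hn this, lab_eq hr, lab_eq hr, blab_two.2 rfl, blab_three.2 rfl] at l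
      exact absurd l (by decide)
    rw [s1]
  · left
    refine ⟨r, hr, ?_⟩
    have o1 : o = 0 := by
      by_contra k
      obtain ⟨o, rfl⟩ : ∃ o', o = o' + 1 := ⟨o - 1, by omega⟩
      have := adj_Cd hi hr (adj_in (o := o) hs (by omega))
      rw [hd] at this
      rw [a.func hn this, lab_eq hr, lab_eq hr] at l
      exact blab_ne (by omega) l
    subst o1
    have s1 : s = 0 := by
      by_contra k
      obtain ⟨s, rfl⟩ : ∃ s', s = s' + 1 := ⟨s - 1, by omega⟩
      have := adj_Cd hi hr (adj_jn (s := s) hs)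
      rw [hd] at this
      rw [a.func hn this, lab_eq hr, lab_eq hr, blab_two.2 rfl, blab_three.2 rfl] at l
      exact absurd l (by decide)
    rw [s1]

open Classical in
theorem count_one {n : ℕ} {h : ℕ → T} {α : DD → DD} (hm : Mt (HH n h).flatten α)
    (hl : ∀ d ∈ (HH n h).flatten, lab h (α d) = lab h d) (hp : Pl (HH n h) α)
    (BP : Finset (ℕ × ℕ)) (hBP : ∀ x ∈ BP, x.1 < n ∧ x.2 < (h x.1).K ∧
      ∃ r < (h x.1).q, ¬ Al n h α x.1 r x.2) :
    BP.card ≤ 6 * (HH n h).countP (· ≠ []) + 4 * (Zs n h).card := by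
  let B := (HH n h).flatten.toFinset.filter fun x =>
    ∃ y, C (HH n h) x y ∧ ¬ C (HH n h) (α y) (α x)
  have h1 := count_corners hm hp B (Zs n h) (by
    intro x hx
    obtain ⟨-, y, a, b⟩ := Finset.mem_filter.1 hx
    refine ⟨y, a, fun e => b ?_, b⟩
    rw [e, (hm.2 x a.mem.1).2.2, ← e]
    exact a) (mono_Zs hl)
  have h2 : BP ⊆ (B ∪ (Zs n h).image α).image fun d => (d.1, d.2.2.1) := by
    rintro ⟨i, s⟩ hx
    obtain ⟨hi, hs, r, hr, na⟩ := hBP _ hx
    simp only at hi hs hr na
    have he : 1 ≤ ex (h i) r s := Nat.le_add_left _ _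
    have hx : ∀ o < ex (h i) r s + 2, ((i, r, s, o) : DD) ∈ (HH n h).flatten := fun o ho =>
      mem_HH.2 ⟨hi, mem_base.2 (Or.inr ⟨hr, hs, ho⟩)⟩
    by_cases hf : (α (i, r, s, 1)).2.1 = 8
    · have k := hm.2 _ (hx 1 (by omega))
      exact Finset.mem_image.2 ⟨(i, r, s, 1), Finset.mem_union_right _
        (Finset.mem_image.2 ⟨_, free_Zs k.1 hf, k.2.2⟩), rfl⟩
    · have := mt (fun hb => good hm hl hi hr hs hb hf) na
      push Not at this
      obtain ⟨o, ho, y, a, b⟩ := this
      exact Finset.mem_image.2 ⟨(i, r, s, o), Finset.mem_union_left _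
        (Finset.mem_filter.2 ⟨List.mem_toFinset.2 (hx o ho), y, a, b⟩), rfl⟩
  have h3 := (Finset.card_le_card h2).trans (Finset.card_image_le.trans (Finset.card_union_le _ _))
  have h4 : ((Zs n h).image α).card ≤ (Zs n h).card := Finset.card_image_le
  omega

end Pool.Agent.P.MP_bb0bfc_al.UP
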