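import Pool.Agent.P.MP_bb0bfc_al.UP.Pic

namespace Pool.Agent.P.MP_bb0bfc_al.UP

variable {D : Type} [DecidableEq D]

theorem euler (α : D → D) : ∀ (n : ℕ) (H : List (List D)), H.flatten.length = n →
    Mt H.flatten α → Pl H α → Eu H α := by
  intro n
  induction n using Nat.strong_induction_on with
  | _ n ih =>
  intro H hn hm hp
  by_cases h0 : H.flatten = []
  · refine ⟨fun _ => 0, fun l hl => ?_, by simp [h0]⟩
    rw [List.flatten_eq_nil_iff.1 h0 l hl]; simp [FC]
  obtain ⟨l, hl, hne⟩ : ∃ l ∈ H, l ≠ [] := by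
    by_contra hc
    exact h0 (List.flatten_eq_nil_iff.2 fun l hl => by_contra fun e => hc ⟨l, hl, e⟩)
  obtain ⟨H1, p1⟩ : ∃ H1, H.Perm (l :: H1) := ⟨_, List.perm_cons_erase hl⟩
  have hm1 := hm.perm p1.flatten
  have hp1 := hp.perm p1
  apply Eu.perm p1.symm
  rw [p1.flatten.length_eq] at hn
  by_cases hc : ∀ x ∈ l, α x ∈ l
  · have hd : ∀ d ∈ H1.flatten, d ∉ l := fun d hd hd' =>
      (List.nodup_append.1 hm1.1).2.2 d hd' d hd rfl
    have := hp1 (W (Sym2 D)) (fun d => if d ∈ l then gen s(d, α d) else 1) (by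
      intro d hd
      have hd' := hm1.2 d hd
      by_cases e : d ∈ l
      · simp only [e, hc d e, if_true, gen_inv, hd'.2.2, Sym2.eq_swap]
      · have : α d ∉ l := fun e' => e (hd'.2.2 ▸ hc _ e')
        simp [e, this])
    rw [List.map_cons] at this
    have h1 := this.head_one (by
      intro b hb
      obtain ⟨l', hl', rfl⟩ := List.mem_map.1 hb
      apply List.prod_eq_one
      intro g hg
      obtain ⟨d, hd', rfl⟩ := List.mem_map.1 hg
      simp [hd d (List.mem_flatten.2 ⟨l', hl', hd'⟩)])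
    have h2 : ev (l.map fun d => s(d, α d)) = 1 := by
      rw [← h1, ev, List.map_map]
      congr 1
      exact List.map_congr_left fun d hd => by simp [hd]
    obtain ⟨A, p, q, B, rfl, e⟩ := ev_split _ l h2 hne
    have hq : q = α p := by
      rcases Sym2.eq_iff.1 e with e | e
      · have := hm1.1
        simp [e.1, List.nodup_append] at this
      · exact e.2.symm
    subst hq
    have hm2 : Mt (p :: α p :: ((B ++ A) :: H1).flatten) α :=
      hm1.perm (List.perm_append_comm.append_right _)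
    apply Eu.rot
    refine Eu.del hm2 (ih _ ?_ _ rfl hm2.fresh.2.2.1 (Pl.del hm2 hp1.rot))
    simp at hn ⊢; omega
  · push Not at hc
    obtain ⟨x, hx, hx'⟩ := hc
    have hx1 : α x ∈ H1.flatten := by
      have := (hm1.2 x (by simp [hx])).1
      simp only [List.flatten_cons, List.mem_append] at this
      tauto
    obtain ⟨l', hl', hx2⟩ := List.mem_flatten.1 hx1
    obtain ⟨R, p2⟩ : ∃ R, H1.Perm (l' :: R) := ⟨_, List.perm_cons_erase hl'⟩
    obtain ⟨u1, u2, rfl⟩ := List.append_of_mem hx
    obtain ⟨v1, v2, rfl⟩ := List.append_of_mem hx2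
    have p3 := p2.cons (u1 ++ x :: u2)
    apply Eu.perm p3.symm
    rw [p3.flatten.length_eq] at hn
    have hm2 : Mt (x :: α x :: (((u2 ++ u1) ++ (v2 ++ v1)) :: R).flatten) α := by
      refine (hm1.perm p3.flatten).perm ?_
      rw [List.perm_iff_count]
      intro d
      simp only [List.flatten_cons, List.count_append, List.count_cons]
      omega
    have hp2 : Pl ((x :: (u2 ++ u1)) :: (α x :: (v2 ++ v1)) :: R) α :=
      ((((hp1.perm p3).rot).perm (List.Perm.swap _ _ _)).rot).perm (List.Perm.swap _ _ _)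
    have := Eu.merge hm2 (ih _ (by simp at hn ⊢; omega) _ rfl hm2.fresh.2.2.1 (Pl.merge hm2 hp2))
    apply Eu.rot
    apply Eu.perm (List.Perm.swap _ _ _)
    apply Eu.rot
    exact this.perm (List.Perm.swap _ _ _)

/-- corner: `y` follows `x` on a hole -/
def C (H : List (List D)) (x y : D) : Prop := ∃ l ∈ H, x ∈ l ∧ l.formPerm x = y

omit [DecidableEq D] in
theorem hole_eq {H : List (List D)} (h : H.flatten.Nodup) {l l' : List D} (hl : l ∈ H)
    (hl' : l' ∈ H) {x : D} (hx : x ∈ l) (hx' : x ∈ l') : l = l' := by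
  by_contra e
  have : Std.Symm (List.Disjoint (α := D)) := ⟨fun _ _ h => h.symm⟩
  exact (List.nodup_flatten.1 h).2.forall hl hl' e hx hx'

theorem C.func {H : List (List D)} (h : H.flatten.Nodup) {x y y' : D} (a : C H x y)
    (b : C H x y') : y = y' := by
  obtain ⟨l, hl, hx, rfl⟩ := a
  obtain ⟨l', hl', hx', rfl⟩ := b
  rw [hole_eq h hl hl' hx hx']

theorem C.inj {H : List (List D)} (h : H.flatten.Nodup) {x x' y : D} (a : C H x y)
    (b : C H x' y) : x = x' := by
  obtain ⟨l, hl, hx, rfl⟩ := a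
  obtain ⟨l', hl', hx', e⟩ := b
  have := hole_eq h hl hl' (List.formPerm_apply_mem_of_mem hx)
    (e ▸ List.formPerm_apply_mem_of_mem hx')
  subst this
  exact (l.formPerm.injective e).symm

theorem C.ex {H : List (List D)} {x : D} (h : x ∈ H.flatten) : ∃ y, C H x y :=
  let ⟨l, hl, hx⟩ := List.mem_flatten.1 h; ⟨_, l, hl, hx, rfl⟩

theorem C.mem {H : List (List D)} {x y : D} (a : C H x y) : x ∈ H.flatten ∧ y ∈ H.flatten := by
  obtain ⟨l, hl, hx, rfl⟩ := a
  exact ⟨List.mem_flatten.2 ⟨l, hl, hx⟩,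
    List.mem_flatten.2 ⟨l, hl, List.formPerm_apply_mem_of_mem hx⟩⟩

theorem map_formPerm {l : List D} (h : l.Nodup) : l.map l.formPerm = l.rotate 1 := by
  apply List.ext_getElem (by simp)
  intro i h1 h2
  rw [List.getElem_map, List.formPerm_apply_getElem _ h, List.getElem_rotate]

theorem count_corners {H : List (List D)} {α : D → D} (hm : Mt H.flatten α) (hp : Pl H α)
    (B Z : Finset D) (hB : ∀ x ∈ B, ∃ y, C H x y ∧ y ≠ α x ∧ ¬ C H (α y) (α x))
    (hZ : ∀ x, C H x (α x) → x ∈ Z) :
    B.card ≤ 6 * H.countP (· ≠ []) + 3 * Z.card := by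
  obtain ⟨f, hf, hc⟩ := euler α _ H rfl hm hp
  have hcol : ∀ x y, C H x y → f (α x) = f y := by
    rintro x y ⟨l, hl, hx, rfl⟩
    have := hf l hl
    unfold FC at this
    rw [← map_formPerm ((List.nodup_flatten.1 hm.1).1 l hl), List.map_map] at this
    exact List.map_inj_left.1 this x hx
  set S := H.flatten.toFinset with hS
  have hSc : S.card = H.flatten.length := List.toFinset_card_of_nodup hm.1
  have hmem : ∀ d, d ∈ S ↔ d ∈ H.flatten := fun d => List.mem_toFinset
  let sz : ℕ → ℕ := fun c => (S.filter fun d => f d = c).card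
  have h3 : B.card ≤ (S.filter fun d => 3 ≤ sz (f d)).card := by
    apply Finset.card_le_card_of_injOn α
    · intro x hx
      obtain ⟨y, a, h1, h2⟩ := hB x hx
      have mx := hm.2 x a.mem.1
      have my := hm.2 y a.mem.2
      obtain ⟨z, b⟩ := C.ex my.1
      have e1 := hcol _ _ a
      have e2 := hcol _ _ b
      rw [my.2.2] at e2
      simp only [Finset.coe_filter, Set.mem_ofPred_eq]
      refine ⟨(hmem _).2 mx.1, Finset.two_lt_card_iff.2 ⟨α x, y, z, ?_, ?_, ?_, h1.symm, ?_, ?_⟩⟩
      · simp [hmem, mx.1]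
      · simp [hmem, a.mem.2, e1]
      · simp [hmem, b.mem.2, e1, e2]
      · exact fun e => h2 (e ▸ b)
      · intro e
        subst e
        exact h1 (by rw [a.inj hm.1 b, my.2.2])
    · intro x hx x' hx' e
      obtain ⟨y, a, -⟩ := hB x hx
      obtain ⟨y', a', -⟩ := hB x' hx'
      rw [← (hm.2 x a.mem.1).2.2, e, (hm.2 x' a'.mem.1).2.2]
  have h1 : (S.filter fun d => sz (f d) = 1).card ≤ Z.card := by
    apply Finset.card_le_card_of_injOn α
    · intro d hd
      simp only [Finset.coe_filter, Set.mem_ofPred_eq] at hd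
      have md := hm.2 d ((hmem _).1 hd.1)
      obtain ⟨y, a⟩ := C.ex md.1
      have e1 := hcol _ _ a
      rw [md.2.2] at e1
      have : y = d := Finset.card_le_one.1 hd.2.le y (by simp [hmem, a.mem.2, e1]) d
        (by simp [hd.1])
      apply hZ
      rw [md.2.2]
      exact this ▸ a
    · intro x hx x' hx' e
      simp only [Finset.coe_filter, Set.mem_ofPred_eq] at hx hx'
      rw [← (hm.2 x ((hmem _).1 hx.1)).2.2, e, (hm.2 x' ((hmem _).1 hx'.1)).2.2]
  have key : 6 * (S.image f).card + (S.filter fun d => 3 ≤ sz (f d)).card ≤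
      3 * S.card + 3 * (S.filter fun d => sz (f d) = 1).card := by
    rw [Finset.card_filter, Finset.card_filter, Finset.card_eq_sum_card_image f S,
      Finset.sum_comp (fun c => if 3 ≤ sz c then 1 else 0) f,
      Finset.sum_comp (fun c => if sz c = 1 then 1 else 0) f, Finset.card_eq_sum_ones,
      Finset.mul_sum, Finset.mul_sum, Finset.mul_sum, ← Finset.sum_add_distrib,
      ← Finset.sum_add_distrib]
    apply Finset.sum_le_sum
    intro c hc
    have : 0 < sz c := by
      obtain ⟨d, hd, rfl⟩ := Finset.mem_image.1 hc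
      exact Finset.card_pos.2 ⟨d, by simp [hd]⟩
    show 6 * 1 + sz c • _ ≤ 3 * sz c + 3 * (sz c • _)
    split_ifs <;> simp <;> omega
  omega

omit [DecidableEq D] in
theorem filter_pic {H : List (List D)} {α : D → D} (hm : Mt H.flatten α) (hp : Pl H α)
    (p : D → Bool) (h : ∀ d ∈ H.flatten, p d → p (α d)) :
    Mt (H.map (List.filter p)).flatten α ∧ Pl (H.map (List.filter p)) α := by
  refine ⟨?_, fun G _ t ht => ?_⟩
  · rw [← List.filter_flatten]
    refine ⟨hm.1.filter _, fun d hd => ?_⟩
    have hd' := List.mem_filter.1 hd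
    exact ⟨List.mem_filter.2 ⟨(hm.2 d hd'.1).1, h d hd'.1 hd'.2⟩, (hm.2 d hd'.1).2⟩
  · rw [← List.filter_flatten] at ht
    have := hp G (fun d => if p d then t d else 1) (by
      intro d hd
      by_cases e : p d
      · simp only [e, h d hd e, if_true]
        exact ht d (List.mem_filter.2 ⟨hd, e⟩)
      · have : ¬ p (α d) := fun e' => e ((hm.2 d hd).2.2 ▸ h _ (hm.2 d hd).1 e')
        simp [e, this])
    rw [List.map_map]
    convert this using 2
    ext l
    induction l with
    | nil => rfl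
    | cons a l ih =>
        by_cases e : p a
        · simp_all
        · simp_all

end Pool.Agent.P.MP_bb0bfc_al.UP
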