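import Pool.Agent.P.MP_bb0bfc_al.UP.Count

namespace Pool.Agent.P.MP_bb0bfc_al.UP

def par (r : ℕ) : ℕ := if bwd r then r - 2 else r + 2
def nxt (ε : Bool) (r : ℕ) : ℕ := if ε then (r + 7) % 8 else (r + 1) % 8

theorem Al.q_eq {n : ℕ} {h : ℕ → T} {α : DD → DD} {i r s : ℕ} (hr : r < (h i).q)
    (a : Al n h α i r s) : (h i).q = 8 := by
  obtain ⟨i', r', -, -, hr', -, t, -, d⟩ := a
  cases e : h i <;> cases e' : h i' <;> rw [e] at hr t d <;> rw [e'] at hr' t d <;>
    simp_all [T.q, T.tag, dir, T.eps]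

theorem Al.symm {n : ℕ} {h : ℕ → T} {α : DD → DD} (hm : Mt (HH n h).flatten α) {i r s i' r' : ℕ}
    (hi : i < n) (hr : r < (h i).q) (hs : s < (h i).K) (a : Al n h α i r s)
    (e : α (i, r, s, 0) = (i', r', s, 0)) : Al n h α i' r' s := by
  obtain ⟨j, t, e', -, -, -, t1, t2, t3⟩ := a
  rw [e] at e'
  obtain ⟨rfl, rfl⟩ : i' = j ∧ r' = t := by simpa using e'
  refine ⟨i, r, ?_, hi, hr, hs, t1.symm, t2.symm, by rw [t3]; simp⟩
  rw [← e]
  exact (hm.2 _ (mem_HH.2 ⟨hi, mem_base.2 (Or.inr ⟨hr, hs, by simp⟩)⟩)).2.2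

theorem par_eq {r r' : ℕ} (hr : r < 8) (hr' : r' < 8) (h1 : nm r' = nm r)
    (h2 : bwd r' = !bwd r) : r' = par r := by
  interval_cases r <;> interval_cases r' <;> simp_all [nm, bwd, par]

theorem same_eq {r r' : ℕ} (hr : r < 8) (hr' : r' < 8) (h1 : nm r' = nm r)
    (h2 : bwd r' = bwd r) : r' = r := by
  interval_cases r <;> interval_cases r' <;> simp_all [nm, bwd]

theorem filter_base {τ : T} (hq : τ.q = 8) {s : ℕ} (hs : s < τ.K) :
    (base τ).filter (fun z => decide (z.2.1 = s ∧ z.2.2 = 0 ∧ z.1 ≠ 8)) =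
      (List.range 8).map fun r => (r, s, 0) := by
  unfold base
  rw [List.filter_append, List.filter_eq_nil_iff.2 (by simp), List.nil_append, hq,
    List.filter_flatMap, List.map_eq_flatMap]
  apply List.flatMap_congr
  intro r hr
  have hr' := List.mem_range.1 hr
  rw [← List.perm_singleton,
    List.perm_ext_iff_of_nodup ((nodup_side _ _).filter _) (List.nodup_singleton _)]
  rintro ⟨a, b, c⟩
  simp only [List.mem_filter, mem_side, decide_eq_true_eq, List.mem_singleton, Prod.mk.injEq]
  constructor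
  · rintro ⟨⟨h1, -⟩, h2, h3, -⟩; exact ⟨h1, h2, h3⟩
  · rintro ⟨rfl, rfl, rfl⟩; exact ⟨⟨rfl, hs, by omega⟩, rfl, rfl, by omega⟩

theorem marks_perm (i s : ℕ) {r : ℕ} (hr : r < 8) :
    ((List.range 8).map fun r => ((i, r, s, 0) : DD)).formPerm (i, r, s, 0) =
      (i, (r + 1) % 8, s, 0) := by
  have := List.formPerm_apply_getElem ((List.range 8).map fun r => ((i, r, s, 0) : DD))
    (List.nodup_range.map fun a b e => by simpa using e) r (by simpa using hr)
  simpa only [List.getElem_map, List.getElem_range, List.length_map, List.length_range] using this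

theorem countP_range {β : Type} (p : β → Bool) (F : ℕ → β) (n : ℕ) :
    ((List.range n).map F).countP p = ∑ i ∈ Finset.range n, if p (F i) then 1 else 0 := by
  induction n with
  | zero => simp
  | succ n ih => rw [List.range_succ, Finset.sum_range_succ, ← ih]; simp [List.countP_cons]

open Classical in
theorem count_two {n : ℕ} {h : ℕ → T} {α : DD → DD} (hm : Mt (HH n h).flatten α)
    (hp : Pl (HH n h) α) (s : ℕ)
    (hmir : ∀ i r, i < n → r < (h i).q → s < (h i).K → Al n h α i r s →
      (h (α (i, r, s, 0)).1).eps = (h i).eps) :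
    ((Finset.range n).filter fun i => s < (h i).K).card ≤
      20 * ((Finset.range n).filter fun i =>
        s < (h i).K ∧ ∃ r < (h i).q, ¬ Al n h α i r s).card := by
  set NF := (Finset.range n).filter fun i => s < (h i).K ∧ ∃ r < (h i).q, ¬ Al n h α i r s
    with hNF
  let F := (Finset.range n).filter fun i => s < (h i).K ∧ ∀ r < (h i).q, Al n h α i r s
  let p : DD → Bool := fun d =>
    decide (d.2.2.1 = s ∧ d.2.2.2 = 0 ∧ d.2.1 ≠ 8 ∧ Al n h α d.1 d.2.1 s)
  have hmk : ∀ d ∈ (HH n h).flatten, p d → ∃ i r, d = (i, r, s, 0) ∧ i < n ∧ r < (h i).q ∧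
      s < (h i).K ∧ Al n h α i r s := by
    rintro ⟨i, r, s', o⟩ hd hpd
    obtain ⟨rfl, rfl, h8, a⟩ := of_decide_eq_true hpd
    obtain ⟨hi, m⟩ := mem_HH.1 hd
    obtain ⟨hr, hs, -⟩ := (mem_base.1 m).resolve_left fun k => h8 k.1
    exact ⟨i, r, rfl, hi, hr, hs, a⟩
  obtain ⟨hm', hp'⟩ := filter_pic hm hp p (by
    intro d hd hpd
    obtain ⟨i, r, rfl, hi, hr, hs, a⟩ := hmk d hd hpd
    obtain ⟨i', r', e, -, hr', -⟩ := id a
    have := (h i').q_le
    rw [e]
    exact decide_eq_true ⟨rfl, rfl, by simp only; omega, a.symm hm hi hr hs e⟩)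
  set H' := (HH n h).map (List.filter p) with hH'
  have hmk' : ∀ d ∈ H'.flatten, ∃ i r, d = (i, r, s, 0) ∧ i < n ∧ r < (h i).q ∧
      s < (h i).K ∧ Al n h α i r s := by
    intro d hd
    rw [hH', ← List.filter_flatten] at hd
    exact hmk d (List.mem_filter.1 hd).1 (List.mem_filter.1 hd).2
  have hF : ∀ i ∈ F, i < n ∧ s < (h i).K ∧ (h i).q = 8 ∧ ∀ r < 8, Al n h α i r s := by
    intro i hi
    obtain ⟨h1, h2, h3⟩ := Finset.mem_filter.1 hi
    have h0 : 0 < (h i).q := by
      revert h2; cases h i <;> simp [T.K, T.q]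
    have := (h3 0 h0).q_eq h0
    exact ⟨Finset.mem_range.1 h1, h2, this, this ▸ h3⟩
  have hC : ∀ i ∈ F, ∀ r < 8, C H' (i, r, s, 0) (i, nxt (h i).eps r, s, 0) := by
    intro i hi r hr
    obtain ⟨h1, h2, h3, h4⟩ := hF i hi
    have e : ((base (h i)).map fun z => ((i, z) : DD)).filter p =
        (List.range 8).map fun r => (i, r, s, 0) := by
      rw [List.filter_map, List.filter_congr
        (q := fun z => decide (z.2.1 = s ∧ z.2.2 = 0 ∧ z.1 ≠ 8)), filter_base h3 h2, List.map_map]
      · rfl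
      · intro z hz
        simp only [Function.comp, p, decide_eq_decide]
        refine ⟨fun k => ⟨k.1, k.2.1, k.2.2.1⟩, fun k => ⟨k.1, k.2.1, k.2.2, h4 _ ?_⟩⟩
        exact h3 ▸ ((mem_base.1 hz).resolve_left fun k' => k.2.2 k'.1).1
    refine ⟨(hole h i).filter p,
      List.mem_map_of_mem (List.mem_map_of_mem (List.mem_range.2 h1)), ?_⟩
    unfold hole L0 nxt
    split_ifs
    · rw [List.map_reverse, List.filter_reverse, e, List.formPerm_reverse]
      refine ⟨by simpa using hr, ?_⟩
      rw [Equiv.Perm.inv_eq_iff_eq, marks_perm i s (Nat.mod_lt _ (by omega))]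
      congr 2
      omega
    · rw [e]
      exact ⟨by simpa using hr, marks_perm i s hr⟩
  have hα : ∀ i ∈ F, ∀ r < 8, ∃ i', α (i, r, s, 0) = (i', par r, s, 0) ∧
      (h i').eps = (h i).eps := by
    intro i hi r hr
    obtain ⟨h1, h2, h3, h4⟩ := hF i hi
    have k := hmir i r h1 (by omega) h2 (h4 r hr)
    obtain ⟨i', r', e, -, hr', -, -, t2, t3⟩ := h4 r hr
    rw [e] at k
    simp only at k
    have := (h i').q_le
    refine ⟨i', ?_, k⟩
    rw [e, par_eq hr (by omega) t2]
    unfold dir at t3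
    rw [k] at t3
    revert t3
    cases bwd r' <;> cases bwd r <;> cases (h i).eps <;> simp
  let Z' := (NF ×ˢ Finset.range 8).image fun x => ((x.1, x.2, s, 0) : DD)
  have cZ : Z'.card ≤ NF.card * 8 := Finset.card_image_le.trans (by simp)
  have hZ' : ∀ d ∈ H'.flatten, d.1 ∈ F ∨ d ∈ Z' := by
    intro d hd
    obtain ⟨i, r, rfl, hi, hr, hs, a⟩ := hmk' d hd
    by_cases k : ∀ r < (h i).q, Al n h α i r s
    · exact Or.inl (Finset.mem_filter.2 ⟨Finset.mem_range.2 hi, hs, k⟩)
    · push Not at k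
      have := (h i).q_le
      exact Or.inr (Finset.mem_image.2 ⟨(i, r), Finset.mem_product.2
        ⟨Finset.mem_filter.2 ⟨Finset.mem_range.2 hi, hs, k⟩, Finset.mem_range.2 (by omega)⟩, rfl⟩)
  let A := (F ×ˢ Finset.range 8).image fun x => ((x.1, x.2, s, 0) : DD)
  have cA : A.card = F.card * 8 := by
    rw [Finset.card_image_of_injective _ fun a b e => by simpa [Prod.ext_iff] using e]; simp
  let B := A.filter fun x => ∃ y, C H' x y ∧ y ≠ α x ∧ ¬ C H' (α y) (α x)
  have mono : ∀ i ∈ F, ∀ r < 8, ((i, nxt (h i).eps r, s, 0) : DD) ≠ α (i, r, s, 0) := by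
    intro i hi r hr e
    obtain ⟨i', e', -⟩ := hα i hi r hr
    rw [e'] at e
    have : nxt (h i).eps r = par r := by simpa using congrArg (fun d : DD => d.2.1) e
    revert this
    cases (h i).eps <;> interval_cases r <;> decide
  have h1 := count_corners hm' hp' B Z' (fun x hx => (Finset.mem_filter.1 hx).2) (by
    intro x a
    refine (hZ' x a.mem.1).resolve_left fun k => ?_
    obtain ⟨i, r, rfl, hi, hr, hs, -⟩ := hmk' x a.mem.1
    have hr' : r < 8 := by have := (h i).q_le; omega
    exact mono i k r hr' ((hC i k r hr').func hm'.1 a))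
  have h2 : A ⊆ B ∪ Z'.image fun y =>
      ((α y).1, nxt (!(h (α y).1).eps) (α y).2.1, s, 0) := by
    intro x hx
    obtain ⟨⟨i, r⟩, hir, rfl⟩ := Finset.mem_image.1 hx
    obtain ⟨hi, hr⟩ := Finset.mem_product.1 hir
    have hr : r < 8 := Finset.mem_range.1 hr
    simp only at hi ⊢
    have c := hC i hi r hr
    by_cases k : C H' (α (i, nxt (h i).eps r, s, 0)) (α (i, r, s, 0))
    · apply Finset.mem_union_right
      refine Finset.mem_image.2 ⟨α (i, nxt (h i).eps r, s, 0), ?_, ?_⟩
      · refine (hZ' _ k.mem.1).resolve_left fun k' => ?_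
        have hr2 : nxt (h i).eps r < 8 := by unfold nxt; split_ifs <;> omega
        obtain ⟨i1, e1, -⟩ := hα i hi r hr
        obtain ⟨i2, e2, t2⟩ := hα i hi _ hr2
        rw [e2] at k k'
        rw [e1] at k
        have hr3 : par (nxt (h i).eps r) < 8 := by
          revert hr2; cases (h i).eps <;> interval_cases r <;> decide
        have := k.func hm'.1 (hC i2 k' _ hr3)
        have : par r = nxt (h i).eps (par (nxt (h i).eps r)) := by
          simpa [t2] using congrArg (fun d : DD => d.2.1) this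
        revert this
        cases (h i).eps <;> interval_cases r <;> decide
      · rw [(hm'.2 _ c.mem.2).2.2]
        simp only [Prod.mk.injEq, true_and, and_true]
        cases (h i).eps <;> interval_cases r <;> decide
    · exact Finset.mem_union_left _ (Finset.mem_filter.2 ⟨hx, _, c, mono i hi r hr, k⟩)
  have h3 := (Finset.card_le_card h2).trans ((Finset.card_union_le _ _).trans
    (add_le_add le_rfl Finset.card_image_le))
  have h4 : H'.countP (· ≠ []) ≤ ((Finset.range n).filter fun i => s < (h i).K).card := by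
    rw [hH', HH, List.map_map, countP_range, Finset.card_filter]
    apply Finset.sum_le_sum
    intro i hi
    split_ifs with k1 k2
    · rfl
    · obtain ⟨d, hd⟩ := List.exists_mem_of_ne_nil _ (of_decide_eq_true k1)
      obtain ⟨j, r, rfl, -, -, hs, -⟩ := hmk' d (List.mem_flatten.2 ⟨_, List.mem_map_of_mem
        (List.mem_map_of_mem (List.mem_range.2 (Finset.mem_range.1 hi))), hd⟩)
      have := (mem_hole.1 (List.mem_filter.1 hd).1).1
      simp only at this
      exact absurd (this ▸ hs) k2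
    · omega
    · rfl
  have h5 : ((Finset.range n).filter fun i => s < (h i).K).card ≤ F.card + NF.card := by
    refine (Finset.card_le_card ?_).trans (Finset.card_union_le _ _)
    intro i hi
    obtain ⟨k1, k2⟩ := Finset.mem_filter.1 hi
    by_cases k : ∀ r < (h i).q, Al n h α i r s
    · exact Finset.mem_union_left _ (Finset.mem_filter.2 ⟨k1, k2, k⟩)
    · push Not at k
      exact Finset.mem_union_right _ (Finset.mem_filter.2 ⟨k1, k2, k⟩)
  omega

end Pool.Agent.P.MP_bb0bfc_al.UP
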