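import Pool.Agent.P.MP_bb0bfc_al.UP.Euler

namespace Pool.Agent.P.MP_bb0bfc_al.UP

variable {D : Type} [DecidableEq D] {ι : Type} [DecidableEq ι]

theorem lift_base (lab : D → ι) : ∀ (n : ℕ) (L : List D), L.length = n → L.Nodup →
    ev (L.map lab) = 1 → ∃ α : D → D, Mt L α ∧ (∀ d ∈ L, lab (α d) = lab d) ∧
      ∀ (G : Type) [Group G] (t : D → G), (∀ d ∈ L, t (α d) = (t d)⁻¹) → (L.map t).prod = 1 := by
  intro n
  induction n using Nat.strong_induction_on with
  | _ n ih =>
  intro L hn hd h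
  by_cases h0 : L = []
  · subst h0
    exact ⟨id, ⟨hd, by simp⟩, by simp, by simp⟩
  obtain ⟨A, p, q, B, rfl, e⟩ := ev_split lab L h h0
  have hd' : (p :: q :: (A ++ B)).Nodup := by
    refine (List.Perm.nodup_iff ?_).1 hd
    exact List.perm_middle.trans (List.perm_middle.cons p)
  simp only [List.nodup_cons, List.mem_cons, not_or] at hd'
  have hf : ∀ d ∈ A ++ B, d ≠ p ∧ d ≠ q := fun d hd =>
    ⟨fun e => hd'.1.2 (e ▸ hd), fun e => hd'.2.1 (e ▸ hd)⟩
  have hqp : q ≠ p := fun e => hd'.1.1 e.symm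
  obtain ⟨α, hm, hl, hu⟩ := ih (A ++ B).length (by simp at hn ⊢; omega) (A ++ B) rfl hd'.2.2 (by
    rw [List.map_append, List.map_cons, List.map_cons, ev_append, ev_cons, ev_cons, e,
      ← mul_assoc (gen _), gen_mul, one_mul] at h
    rwa [List.map_append, ev_append])
  have ho : ∀ d ∈ A ++ B, upd α p q q p d = α d := fun d hd => upd_o _ (hf d hd).1 (hf d hd).2 _ _
  have hc : ∀ d ∈ A ++ p :: q :: B, d = p ∨ d = q ∨ d ∈ A ++ B := by
    intro d hd; simp at hd ⊢; tauto
  refine ⟨upd α p q q p, ⟨hd, fun d hd => ?_⟩, fun d hd => ?_, fun G _ t ht => ?_⟩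
  · rcases hc d hd with rfl | rfl | hd
    · rw [upd_x, upd_y _ hqp]; simp [hqp]
    · rw [upd_y _ hqp, upd_x]; simp [hqp.symm]
    · have k := hm.2 d hd
      rw [ho d hd, ho _ k.1]
      refine ⟨?_, k.2⟩
      have := k.1
      simp at this ⊢; tauto
  · rcases hc d hd with rfl | rfl | hd
    · rw [upd_x, e]
    · rw [upd_y _ hqp, e]
    · rw [ho d hd, hl d hd]
  · have h1 := hu G t fun d hd => by
      rw [← ho d hd]; exact ht d (by simp at hd ⊢; tauto)
    have h2 := ht p (by simp)
    rw [upd_x] at h2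
    simpa [h2] using h1

omit [DecidableEq ι] in
theorem strip (lab : D → ι) {p q : D} {l : List D} {R : List (List D)} {α : D → D}
    (hm : Mt ((p :: (l ++ [q])) :: R).flatten α)
    (hl : ∀ d ∈ ((p :: (l ++ [q])) :: R).flatten, lab (α d) = lab d) (e : lab p = lab q)
    (hp : Pl ((p :: (l ++ [q])) :: R) α) :
    ∃ β : D → D, Mt (l :: R).flatten β ∧ (∀ d ∈ (l :: R).flatten, lab (β d) = lab d) ∧
      Pl (l :: R) β := by
  have pm : ((p :: (l ++ [q])) :: R).flatten.Perm (q :: p :: (l :: R).flatten) := by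
    rw [List.perm_iff_count]
    intro d
    simp only [List.flatten_cons, List.count_append, List.count_cons, List.count_nil]
    omega
  have hm' := hm.perm pm
  have hl' : ∀ d ∈ q :: p :: (l :: R).flatten, lab (α d) = lab d :=
    fun d hd => hl d (pm.mem_iff.2 hd)
  by_cases hq : p = α q
  · subst hq
    exact ⟨α, hm'.fresh.2.2.1, fun d hd => hl' d (by simp only [List.mem_cons]; tauto),
      Pl.del hm' (Pl.rot (u := α q :: l) (v := [q]) hp)⟩
  obtain ⟨hn, hk⟩ := hm'
  set L := (l :: R).flatten with hL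
  simp only [List.nodup_cons, List.mem_cons, not_or] at hn
  have hf : ∀ d ∈ L, d ≠ p ∧ d ≠ q := fun d hd =>
    ⟨fun e => hn.2.1 (e ▸ hd), fun e => hn.1.2 (e ▸ hd)⟩
  have kp := hk p (by simp)
  have kq := hk q (by simp)
  have ha : α p ∈ L := by
    rcases List.mem_cons.1 kp.1 with h | h
    · exact absurd (by rw [← h, kp.2.2]) hq
    · exact (List.mem_cons.1 h).resolve_left kp.2.1
  have hb : α q ∈ L := by
    rcases List.mem_cons.1 kq.1 with h | h
    · exact absurd h kq.2.1
    · exact (List.mem_cons.1 h).resolve_left fun h => hq h.symm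
  have hab : α q ≠ α p := fun h => hn.1.1 (by rw [← kq.2.2, h, kp.2.2])
  have ko : ∀ d ∈ L, d ≠ α p → d ≠ α q → α d ∈ L ∧ α d ≠ α p ∧ α d ≠ α q := by
    intro d hd h1 h2
    have k := hk d (by simp [hd])
    refine ⟨?_, fun h => (hf d hd).1 (by rw [← k.2.2, h, kp.2.2]),
      fun h => (hf d hd).2 (by rw [← k.2.2, h, kq.2.2])⟩
    rcases List.mem_cons.1 k.1 with h | h
    · exact absurd (by rw [← h, k.2.2]) h2
    · exact (List.mem_cons.1 h).resolve_left fun h => h1 (by rw [← h, k.2.2])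
  refine ⟨upd α (α p) (α q) (α q) (α p), ⟨hn.2.2, fun d hd => ?_⟩, fun d hd => ?_,
    fun G _ t ht => ?_⟩
  · by_cases h1 : d = α p
    · subst h1; rw [upd_x, upd_y _ hab]; exact ⟨hb, hab, rfl⟩
    by_cases h2 : d = α q
    · subst h2; rw [upd_y _ hab, upd_x]; exact ⟨ha, hab.symm, rfl⟩
    have k := ko d hd h1 h2
    rw [upd_o _ h1 h2, upd_o _ k.2.1 k.2.2]
    exact ⟨k.1, (hk d (by simp [hd])).2⟩
  · by_cases h1 : d = α p
    · subst h1; rw [upd_x, hl' p (by simp), hl' q (by simp), e]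
    by_cases h2 : d = α q
    · subst h2; rw [upd_y _ hab, hl' p (by simp), hl' q (by simp), e]
    rw [upd_o _ h1 h2, hl' d (by simp [hd])]
  · have hqp : q ≠ p := hn.1.1
    have tb : t (α q) = (t (α p))⁻¹ := by
      have := ht _ ha
      rwa [upd_x] at this
    have := hp G (upd t p q (t (α p))⁻¹ (t (α p))) (by
      intro d hd
      rcases List.mem_cons.1 (pm.mem_iff.1 hd) with rfl | hd
      · rw [upd_y _ hqp, upd_o _ (hf _ hb).1 (hf _ hb).2, tb]
      rcases List.mem_cons.1 hd with rfl | hd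
      · rw [upd_x, upd_o _ (hf _ ha).1 (hf _ ha).2, inv_inv]
      rw [upd_o _ (hf _ hd).1 (hf _ hd).2]
      by_cases h1 : d = α p
      · subst h1; rw [kp.2.2, upd_x]
      by_cases h2 : d = α q
      · subst h2; rw [kq.2.2, upd_y _ hqp, tb, inv_inv]
      have k := ko d hd h1 h2
      rw [upd_o _ (hf _ k.1).1 (hf _ k.1).2, ← ht d hd, upd_o _ h1 h2])
    simp only [List.map_cons, List.prod_cons, List.map_append, List.prod_append, List.map_nil,
      List.prod_nil, mul_one] at this
    rw [upd_x, upd_y _ hqp, map_upd _ _ _ fun d hd => hf d (by simp [hL, hd]),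
      rest_upd _ _ _ fun d hd => hf d (by
        simp only [hL, List.flatten_cons, List.mem_append]; tauto)] at this
    apply PC.head (t (α p))⁻¹
    convert this using 2
    group

theorem lift_aux [Infinite D] : ∀ (n : ℕ) (P : List (List ι × List D)) (lab : D → ι),
    (P.map fun p => p.1.length).sum = n → (P.map Prod.snd).flatten.Nodup →
    (P.map fun p => ev p.1 * ev (p.2.map lab) * (ev p.1)⁻¹).prod = 1 →
    ∃ α : D → D, Mt (P.map Prod.snd).flatten α ∧
      (∀ d ∈ (P.map Prod.snd).flatten, lab (α d) = lab d) ∧ Pl (P.map Prod.snd) α := by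
  intro n
  induction n using Nat.strong_induction_on with
  | _ n ih =>
  intro P lab hn hd h
  by_cases h0 : ∀ p ∈ P, p.1 = []
  · obtain ⟨α, hm, hl, hu⟩ := lift_base lab _ _ rfl hd (by
      rw [← h, ev, List.map_map, List.map_flatten, List.prod_flatten, List.map_map, List.map_map]
      congr 1
      exact List.map_congr_left fun p hp => by simp [h0 p hp, ev])
    refine ⟨α, hm, hl, fun G _ t ht => ?_⟩
    have := hu G t ht
    rw [List.map_flatten, List.prod_flatten, List.map_map] at this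
    rw [← this]
    exact PC.prod _
  push Not at h0
  obtain ⟨⟨u, l⟩, hp, hu⟩ := h0
  obtain ⟨A, B, rfl⟩ := List.append_of_mem hp
  obtain ⟨u, x, rfl⟩ : ∃ u' x, u = u' ++ [x] := ⟨_, _, (List.dropLast_append_getLast hu).symm⟩
  set L := ((A ++ (u ++ [x], l) :: B).map Prod.snd).flatten with hL
  obtain ⟨p, hp⟩ := Infinite.exists_notMem_finset L.toFinset
  obtain ⟨q, hq⟩ := Infinite.exists_notMem_finset (insert p L.toFinset)
  simp only [Finset.mem_insert, List.mem_toFinset, not_or] at hp hq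
  have hf : ∀ d ∈ L, d ≠ p ∧ d ≠ q := fun d hd => ⟨fun e => hp (e ▸ hd), fun e => hq.2 (e ▸ hd)⟩
  have p1 : ((A ++ (u ++ [x], l) :: B).map Prod.snd).Perm (l :: (A ++ B).map Prod.snd) :=
    (List.perm_middle.map _)
  have p2 : ((A ++ (u, p :: (l ++ [q])) :: B).map Prod.snd).Perm
      ((p :: (l ++ [q])) :: (A ++ B).map Prod.snd) := (List.perm_middle.map _)
  have pm : ((p :: (l ++ [q])) :: (A ++ B).map Prod.snd).flatten.Perm (q :: p :: L) := by
    refine List.Perm.trans ?_ ((p1.flatten.symm.cons p).cons q)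
    rw [List.perm_iff_count]
    intro d
    simp only [List.flatten_cons, List.count_append, List.count_cons, List.count_nil]
    omega
  have hrest : ∀ Q : List (List ι × List D), (∀ z ∈ Q, z ∈ A ++ (u ++ [x], l) :: B) →
      (Q.map fun z => ev z.1 * ev (z.2.map (upd lab p q x x)) * (ev z.1)⁻¹) =
        Q.map fun z => ev z.1 * ev (z.2.map lab) * (ev z.1)⁻¹ := fun Q hQ =>
    List.map_congr_left fun z hz => by
      rw [map_upd _ _ _ fun d hd => hf d
        (List.mem_flatten.2 ⟨z.2, List.mem_map_of_mem (hQ z hz), hd⟩)]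
  obtain ⟨α, hm, hl, hpl⟩ := ih _ (by rw [← hn]; simp) (A ++ (u, p :: (l ++ [q])) :: B)
    (upd lab p q x x) rfl
    ((p2.flatten.trans pm).nodup_iff.2 (by
      simp only [List.nodup_cons, List.mem_cons, not_or]; exact ⟨hq, hp, hd⟩)) (by
      rw [← h, List.map_append, List.map_append, List.map_cons, List.map_cons,
        hrest A (by simp; tauto), hrest B (by simp; tauto)]
      congr 3
      simp only [List.map_cons, List.map_append, List.map_nil]
      rw [upd_x, upd_y _ hq.1, map_upd _ _ _ fun d hd => hf d (p1.flatten.mem_iff.2 (by simp [hd])),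
        ev_cons, ev_append, ev_append, ev_single, mul_inv_rev, gen_inv]
      group)
  obtain ⟨β, b1, b2, b3⟩ := strip (upd lab p q x x) (hm.perm p2.flatten)
    (fun d hd => hl d (p2.flatten.mem_iff.2 hd)) (by rw [upd_x, upd_y _ hq.1]) (hpl.perm p2)
  have b1' : Mt L β := b1.perm p1.flatten.symm
  refine ⟨β, b1', fun d hd => ?_, b3.perm p1.symm⟩
  have := b2 d (p1.flatten.mem_iff.1 hd)
  have k := hf _ (b1'.2 d hd).1
  rwa [upd_o _ k.1 k.2, upd_o _ (hf d hd).1 (hf d hd).2] at this

theorem lift [Infinite D] (H : List (List D)) (lab : D → ι) (hd : H.flatten.Nodup)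
    (h : PC (H.map fun l => ev (l.map lab)) 1) :
    ∃ α : D → D, Mt H.flatten α ∧ (∀ d ∈ H.flatten, lab (α d) = lab d) ∧ Pl H α := by
  have key : ∀ (H : List (List D)) (g : W ι), PC (H.map fun l => ev (l.map lab)) g →
      ∃ P : List (List ι × List D), P.map Prod.snd = H ∧
        (P.map fun p => ev p.1 * ev (p.2.map lab) * (ev p.1)⁻¹).prod = g := by
    intro H
    induction H with
    | nil => exact fun g hg => ⟨[], rfl, hg.symm⟩
    | cons l H ih =>
        rintro g ⟨c, k, hk, e⟩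
        obtain ⟨P, rfl, e'⟩ := ih k hk
        obtain ⟨u, rfl⟩ := ev_surj c
        exact ⟨(u, l) :: P, rfl, by rw [List.map_cons, List.prod_cons, e', e]⟩
  obtain ⟨P, rfl, e⟩ := key H 1 h
  exact lift_aux _ P lab rfl hd e

end Pool.Agent.P.MP_bb0bfc_al.UP
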