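import Pool.Agent.P.MP_bb0bfc_al.UP.Core

namespace Pool.Agent.P.MP_bb0bfc_al.UP

open scoped commutatorElement

def NN : Subgroup (W (Fin 4)) := Subgroup.normalClosure (Set.range fun g => wd (.cell g false))

instance : NN.Normal := Subgroup.normalClosure_normal

abbrev GG : Type := W (Fin 4) ⧸ NN

def pr : W (Fin 4) →* GG := QuotientGroup.mk' NN

theorem pr_surj : Function.Surjective pr := QuotientGroup.mk'_surjective NN

theorem pr_eq_one {x : W (Fin 4)} : pr x = 1 ↔ x ∈ NN := QuotientGroup.eq_one_iff x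

theorem NN_PC {x : W (Fin 4)} (hx : x ∈ NN) :
    ∃ ts : List T, PC (ts.map wd) x ∧ (ts.map T.frl).sum = 0 := by
  have one : ∀ (g : List (Fin 4)) (ε : Bool) (c : W (Fin 4)),
      ∃ ts : List T, PC (ts.map wd) (c * wd (.cell g ε) * c⁻¹) ∧ (ts.map T.frl).sum = 0 :=
    fun g ε c => ⟨[.cell g ε], ⟨c, 1, rfl, by simp⟩, rfl⟩
  induction hx using Subgroup.closure_induction'' with
  | mem y hy =>
      obtain ⟨_, ⟨g, rfl⟩, k⟩ := Group.mem_conjugatesOfSet_iff.1 hy
      obtain ⟨c, rfl⟩ := isConj_iff.1 k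
      exact one g false c
  | inv_mem y hy =>
      obtain ⟨_, ⟨g, rfl⟩, k⟩ := Group.mem_conjugatesOfSet_iff.1 hy
      obtain ⟨c, rfl⟩ := isConj_iff.1 k
      have := one g true c
      rw [wd_true] at this
      simpa [mul_assoc] using this
  | one => exact ⟨[], rfl, rfl⟩
  | mul a b _ _ ha hb =>
      obtain ⟨s, h1, h2⟩ := ha
      obtain ⟨t, h3, h4⟩ := hb
      exact ⟨s ++ t, by rw [List.map_append]; exact h1.append h3, by simp [h2, h4]⟩

theorem pal_PC {p : List GG} (hp : p.Palindrome) (h : ∀ x ∈ p, ∃ y, pr (gen y) = x) :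
    ∃ (ts : List T) (g : W (Fin 4)), PC (ts.map wd) g ∧ (ts.map T.frl).sum ≤ 1 ∧ pr g = p.prod := by
  induction hp with
  | nil => exact ⟨[], 1, rfl, by simp, by simp⟩
  | singleton x =>
      obtain ⟨y, rfl⟩ := h x (by simp)
      exact ⟨[.fr [y]], gen y, ⟨1, 1, rfl, by simp [wd_fr, ev_single]⟩, le_rfl, by simp⟩
  | cons_concat x _ ih =>
      obtain ⟨y, rfl⟩ := h x (by simp)
      obtain ⟨ts, g, h1, h2, h3⟩ := ih fun x hx => h x (by simp [hx])
      exact ⟨ts, _, h1.conj (gen y), h2, by simp [gen_inv, h3, mul_assoc]⟩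

theorem pals_PC (L : List (List GG)) (h : ∀ p ∈ L, p.reverse = p ∧ ∀ x ∈ p, ∃ y, pr (gen y) = x) :
    ∃ (ts : List T) (g : W (Fin 4)), PC (ts.map wd) g ∧ (ts.map T.frl).sum ≤ L.length ∧
      pr g = (L.map List.prod).prod := by
  induction L with
  | nil => exact ⟨[], 1, rfl, by simp, by simp⟩
  | cons p L ih =>
      obtain ⟨ts, g, h1, h2, h3⟩ := ih fun x hx => h x (by simp [hx])
      obtain ⟨ts', g', k1, k2, k3⟩ :=
        pal_PC (List.Palindrome.of_reverse_eq (h p (by simp)).1) (h p (by simp)).2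
      refine ⟨ts' ++ ts, g' * g, by rw [List.map_append]; exact k1.append h1, ?_, by simp [h3, k3]⟩
      simp only [List.map_append, List.sum_append, List.length_cons]
      omega

theorem main : ∃ (G : Type) (_ : Group G) (S : Finset G),
    Subgroup.closure (S : Set G) = ⊤ ∧ (∀ x ∈ S, x * x = 1) ∧
    (∀ g : G, ∃ a b c d : G, g = ⁅a, b⁆ * ⁅c, d⁆) ∧
    ∃ w : G, ∀ (k : ℕ) (L : List (List G)),
      (∀ p ∈ L, p.reverse = p ∧ ∀ x ∈ p, x ∈ S ∨ x⁻¹ ∈ S) →
      (L.map List.prod).prod = w ^ k → k ≤ L.length := by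
  classical
  have hS : ∀ x, x ∈ Finset.univ.image (fun y : Fin 4 => pr (gen y)) ↔ ∃ y, pr (gen y) = x := by
    simp
  refine ⟨GG, inferInstance, Finset.univ.image fun y : Fin 4 => pr (gen y), ?_, ?_, ?_,
    (pr (wd .ww))⁻¹, ?_⟩
  · rw [eq_top_iff]
    intro x _
    obtain ⟨g, rfl⟩ := pr_surj x
    obtain ⟨l, rfl⟩ := ev_surj g
    rw [ev, map_list_prod]
    apply Subgroup.list_prod_mem
    intro z hz
    simp only [List.mem_map] at hz
    obtain ⟨_, ⟨y, -, rfl⟩, rfl⟩ := hz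
    exact Subgroup.subset_closure ((hS _).2 ⟨y, rfl⟩)
  · intro x hx
    obtain ⟨y, rfl⟩ := (hS x).1 hx
    rw [← map_mul, gen_mul, map_one]
  · intro x
    obtain ⟨g, rfl⟩ := pr_surj x
    obtain ⟨l, rfl⟩ := ev_surj g
    obtain ⟨a, b, c, d, e⟩ := wd_cell l
    have : pr (wd (.cell l false)) = 1 :=
      pr_eq_one.2 (Subgroup.subset_normalClosure ⟨l, rfl⟩)
    rw [e, map_mul] at this
    refine ⟨pr d, pr c, pr b, pr a, ?_⟩
    rw [eq_inv_of_mul_eq_one_left this]
    simp [commutatorElement_def, mul_assoc]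
  · intro k L hL e
    obtain ⟨ts, g, h1, h2, h3⟩ := pals_PC L fun p hp => ⟨(hL p hp).1, fun x hx => by
      rcases (hL p hp).2 x hx with k | k
      · exact (hS x).1 k
      · obtain ⟨y, hy⟩ := (hS _).1 k
        exact ⟨y, by rw [← gen_inv, map_inv, hy, inv_inv]⟩⟩
    have hN : (g * wd .ww ^ k)⁻¹ ∈ NN := pr_eq_one.1 (by simp [h3, e])
    obtain ⟨cs, c1, c2⟩ := NN_PC hN
    have hw : PC ((List.replicate k T.ww).map wd) (wd .ww ^ k) := by
      have := PC.prod ((List.replicate k T.ww).map wd)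
      rwa [List.map_replicate, List.prod_replicate, ← List.map_replicate] at this
    have := (h1.append hw).append c1
    rw [mul_inv_cancel, ← List.map_append, ← List.map_append] at this
    have := core_list _ this
    simp only [List.map_append, List.sum_append, List.map_replicate, List.sum_replicate, c2,
      T.isw, T.frl, smul_eq_mul] at this
    omega

end Pool.Agent.P.MP_bb0bfc_al.UP
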