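import Pool.Agent.P.MP_bb0bfc_al.UP.Base

namespace Pool.Agent.P.MP_bb0bfc_al.UP

variable {D : Type} [DecidableEq D]

/-- `α` is a fixed point free involution of the entries of the duplicate free list `L` -/
def Mt (L : List D) (α : D → D) : Prop :=
  L.Nodup ∧ ∀ d ∈ L, α d ∈ L ∧ α d ≠ d ∧ α (α d) = d

/-- planarity of a matching of the darts on the holes `H`, in universal form -/
def Pl (H : List (List D)) (α : D → D) : Prop :=
  ∀ (G : Type) [Group G] (t : D → G), (∀ d ∈ H.flatten, t (α d) = (t d)⁻¹) →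
    PC (H.map fun l => (l.map t).prod) 1

def FC (f : D → ℕ) (α : D → D) (l : List D) : Prop :=
  l.map (fun d => f (α d)) = (l.rotate 1).map f

/-- weak Euler inequality, faces given by a colouring -/
def Eu (H : List (List D)) (α : D → D) : Prop :=
  ∃ f : D → ℕ, (∀ l ∈ H, FC f α l) ∧
    H.flatten.length ≤ 2 * H.countP (· ≠ []) + 2 * (H.flatten.toFinset.image f).card

def upd {β : Type} (t : D → β) (x y : D) (a b : β) : D → β :=
  fun d => if d = x then a else if d = y then b else t d

theorem upd_x {β : Type} (t : D → β) (x y : D) (a b : β) : upd t x y a b x = a := by simp [upd]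
theorem upd_y {β : Type} (t : D → β) {x y : D} (h : y ≠ x) (a b : β) : upd t x y a b y = b := by
  simp [upd, h]
theorem upd_o {β : Type} (t : D → β) {x y d : D} (h : d ≠ x) (h' : d ≠ y) (a b : β) :
    upd t x y a b d = t d := by simp [upd, h, h']

omit [DecidableEq D] in
theorem Mt.perm {L L' : List D} {α : D → D} (p : L.Perm L') (h : Mt L α) : Mt L' α :=
  ⟨p.nodup_iff.1 h.1, fun d hd =>
    let k := h.2 d (p.mem_iff.2 hd); ⟨p.mem_iff.1 k.1, k.2⟩⟩

omit [DecidableEq D] in
theorem Pl.perm {H H' : List (List D)} {α : D → D} (p : H.Perm H') (h : Pl H α) : Pl H' α :=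
  fun G _ t ht => (h G t fun d hd => ht d (p.flatten.mem_iff.1 hd)).perm (p.map _)

theorem Eu.perm {H H' : List (List D)} {α : D → D} (p : H.Perm H') (h : Eu H α) : Eu H' α := by
  obtain ⟨f, h1, h2⟩ := h
  refine ⟨f, fun l hl => h1 l (p.mem_iff.2 hl), ?_⟩
  rwa [← p.flatten.length_eq, ← p.countP_eq, ← List.toFinset_eq_of_perm _ _ p.flatten]

omit [DecidableEq D] in
theorem Pl.rot {u v : List D} {R : List (List D)} {α : D → D} (h : Pl ((u ++ v) :: R) α) :
    Pl ((v ++ u) :: R) α := by
  intro G _ t ht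
  have := h G t fun d hd => ht d (by simp at hd ⊢; tauto)
  simp only [List.map_cons, List.map_append, List.prod_append] at this ⊢
  apply PC.head (u.map t).prod
  convert this using 2
  group

theorem Eu.rot {u v : List D} {R : List (List D)} {α : D → D} (h : Eu ((u ++ v) :: R) α) :
    Eu ((v ++ u) :: R) α := by
  obtain ⟨f, h1, h2⟩ := h
  refine ⟨f, fun l hl => ?_, ?_⟩
  · rcases List.mem_cons.1 hl with rfl | hl
    · have := h1 (u ++ v) (by simp)
      unfold FC at this ⊢
      rw [← List.rotate_append_length_eq u v, List.map_rotate, this, List.rotate_rotate,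
        ← List.map_rotate, List.rotate_rotate, Nat.add_comm]
    · exact h1 l (by simp [hl])
  · have p : ((u ++ v) :: R).flatten.Perm ((v ++ u) :: R).flatten :=
      List.perm_append_comm.append_right _
    rw [← p.length_eq, ← List.toFinset_eq_of_perm _ _ p]
    have : List.countP (· ≠ []) ((v ++ u) :: R) = List.countP (· ≠ []) ((u ++ v) :: R) := by
      simp only [List.countP_cons, ne_eq, List.append_eq_nil_iff, and_comm]
    rwa [this]

omit [DecidableEq D] in
theorem Mt.fresh {x : D} {L : List D} {α : D → D} (h : Mt (x :: α x :: L) α) :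
    α x ≠ x ∧ α (α x) = x ∧ Mt L α ∧ ∀ d ∈ L, d ≠ x ∧ d ≠ α x := by
  obtain ⟨hn, hm⟩ := h
  have hx := hm x (by simp)
  simp only [List.nodup_cons, List.mem_cons, not_or] at hn
  have hf : ∀ d ∈ L, d ≠ x ∧ d ≠ α x := fun d hd =>
    ⟨fun e => hn.1.2 (e ▸ hd), fun e => hn.2.1 (e ▸ hd)⟩
  refine ⟨hx.2.1, hx.2.2, ⟨hn.2.2, fun d hd => ?_⟩, hf⟩
  have hd' := hm d (by simp [hd])
  refine ⟨?_, hd'.2⟩
  rcases List.mem_cons.1 hd'.1 with e | e
  · exact absurd (by rw [← e, hd'.2.2]) (hf d hd).2
  · rcases List.mem_cons.1 e with e | e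
    · exact absurd (by rw [← hd'.2.2, e, hx.2.2]) (hf d hd).1
    · exact e

theorem upd_ok {G : Type} [Group G] {x : D} {L : List D} {α : D → D}
    (h : Mt (x :: α x :: L) α) (t : D → G) (ht : ∀ d ∈ L, t (α d) = (t d)⁻¹) (a : G) :
    ∀ d ∈ x :: α x :: L, upd t x (α x) a a⁻¹ (α d) = (upd t x (α x) a a⁻¹ d)⁻¹ := by
  obtain ⟨h1, h2, h3, h4⟩ := h.fresh
  intro d hd
  rcases List.mem_cons.1 hd with rfl | hd
  · rw [upd_x, upd_y _ h1]
  · rcases List.mem_cons.1 hd with rfl | hd
    · rw [h2, upd_x, upd_y _ h1, inv_inv]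
    · have := h4 _ (h3.2 d hd).1
      rw [upd_o _ this.1 this.2, upd_o _ (h4 d hd).1 (h4 d hd).2, ht d hd]

theorem map_upd {β : Type} (t : D → β) {x y : D} (a b : β) {l : List D}
    (h : ∀ d ∈ l, d ≠ x ∧ d ≠ y) : l.map (upd t x y a b) = l.map t :=
  List.map_congr_left fun d hd => upd_o _ (h d hd).1 (h d hd).2 _ _

theorem rest_upd {G : Type} [Group G] (t : D → G) {x y : D} (a b : G) {R : List (List D)}
    (h : ∀ d ∈ R.flatten, d ≠ x ∧ d ≠ y) :
    (R.map fun l => (l.map (upd t x y a b)).prod) = R.map fun l => (l.map t).prod :=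
  List.map_congr_left fun l hl => by
    rw [map_upd _ _ _ fun d hd => h d (List.mem_flatten.2 ⟨l, hl, hd⟩)]

theorem Pl.merge {x : D} {u v : List D} {R : List (List D)} {α : D → D}
    (hm : Mt (x :: α x :: ((u ++ v) :: R).flatten) α)
    (h : Pl ((x :: u) :: (α x :: v) :: R) α) : Pl ((u ++ v) :: R) α := by
  intro G _ t ht
  obtain ⟨h1, h2, h3, h4⟩ := hm.fresh
  have := h G _ fun d hd => upd_ok hm t ht ((u.map t).prod)⁻¹ d (by simp at hd ⊢; tauto)
  simp only [List.map_cons, List.prod_cons] at this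
  rw [upd_x, upd_y _ h1, map_upd _ _ _ fun d hd => h4 d (by simp [hd]),
    map_upd _ _ _ fun d hd => h4 d (by simp [hd]),
    rest_upd _ _ _ fun d hd => h4 d (by simp only [List.flatten_cons, List.mem_append]; tauto),
    inv_mul_cancel, inv_inv] at this
  simpa using this.one_cons

theorem Pl.del {x : D} {w : List D} {R : List (List D)} {α : D → D}
    (hm : Mt (x :: α x :: (w :: R).flatten) α)
    (h : Pl ((x :: α x :: w) :: R) α) : Pl (w :: R) α := by
  intro G _ t ht
  obtain ⟨h1, h2, h3, h4⟩ := hm.fresh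
  have := h G _ fun d hd => upd_ok hm t ht 1 d (by simp at hd ⊢; tauto)
  simp only [List.map_cons, List.prod_cons] at this
  rw [upd_x, upd_y _ h1, map_upd _ _ _ fun d hd => h4 d (by simp [hd]),
    rest_upd _ _ _ fun d hd => h4 d (by simp only [List.flatten_cons, List.mem_append]; tauto)]
    at this
  simpa using this

theorem mapa_upd (f : D → ℕ) {x y : D} (a b : ℕ) {L l : List D} {α : D → D} (h3 : Mt L α)
    (h4 : ∀ d ∈ L, d ≠ x ∧ d ≠ y) (hl : ∀ d ∈ l, d ∈ L) :
    (l.map fun d => upd f x y a b (α d)) = l.map fun d => f (α d) :=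
  List.map_congr_left fun d hd =>
    let k := h4 _ (h3.2 d (hl d hd)).1; upd_o _ k.1 k.2 _ _

theorem FC.upd {f : D → ℕ} {x y : D} (a b : ℕ) {L l : List D} {α : D → D} (h3 : Mt L α)
    (h4 : ∀ d ∈ L, d ≠ x ∧ d ≠ y) (hl : ∀ d ∈ l, d ∈ L) (h : FC f α l) :
    FC (upd f x y a b) α l := by
  unfold FC at h ⊢
  rw [mapa_upd f a b h3 h4 hl, h, map_upd _ _ _ fun d hd => h4 d (hl d (List.mem_rotate.1 hd))]

theorem image_upd (f : D → ℕ) {x y : D} (a b : ℕ) {L L' : List D}
    (h4 : ∀ d ∈ L, d ≠ x ∧ d ≠ y) (hs : ∀ d ∈ L, d ∈ L') :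
    L.toFinset.image f ⊆ L'.toFinset.image (upd f x y a b) := by
  intro c hc
  obtain ⟨d, hd, rfl⟩ := Finset.mem_image.1 hc
  have hd' := List.mem_toFinset.1 hd
  exact Finset.mem_image.2 ⟨d, List.mem_toFinset.2 (hs d hd'),
    upd_o _ (h4 d hd').1 (h4 d hd').2 _ _⟩

theorem Eu.merge {x : D} {u v : List D} {R : List (List D)} {α : D → D}
    (hm : Mt (x :: α x :: ((u ++ v) :: R).flatten) α)
    (h : Eu ((u ++ v) :: R) α) : Eu ((x :: u) :: (α x :: v) :: R) α := by
  obtain ⟨h1, h2, h3, h4⟩ := hm.fresh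
  obtain ⟨f, hf, hc⟩ := h
  have hu : ∀ d ∈ u, d ∈ ((u ++ v) :: R).flatten := fun d hd => by simp [hd]
  have hv : ∀ d ∈ v, d ∈ ((u ++ v) :: R).flatten := fun d hd => by simp [hd]
  have h0 := hf (u ++ v) (by simp)
  refine ⟨upd f x (α x) (((v ++ u).map f).headD 0) (((u ++ v).map f).headD 0),
    fun l hl => ?_, ?_⟩
  · rcases List.mem_cons.1 hl with rfl | hl
    · unfold FC at h0 ⊢
      rw [List.rotate_cons_succ, List.rotate_zero, List.map_cons, List.map_append (l₂ := [x]),
        mapa_upd f _ _ h3 h4 hu, map_upd _ _ _ fun d hd => h4 d (hu d hd), upd_y _ h1,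
        List.map_singleton, upd_x]
      rcases u with _ | ⟨u0, u⟩
      · simp
      · rcases v with _ | ⟨v0, v⟩
        · simpa using h0
        · simp only [List.cons_append, List.rotate_cons_succ, List.rotate_zero, List.map_cons,
            List.map_append, List.headD_cons, List.cons.injEq, true_and] at h0 ⊢
          have e : (f (α u0) :: List.map (fun d => f (α d)) u) ++
              (f (α v0) :: List.map (fun d => f (α d)) v) =
              (List.map f u ++ [f v0]) ++ (List.map f v ++ [f u0]) := by simpa using h0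
          exact (List.append_inj e (by simp)).1
    rcases List.mem_cons.1 hl with rfl | hl
    · unfold FC at h0 ⊢
      rw [List.rotate_cons_succ, List.rotate_zero, List.map_cons, List.map_append (l₂ := [α x]),
        mapa_upd f _ _ h3 h4 hv, map_upd _ _ _ fun d hd => h4 d (hv d hd), h2, upd_x,
        List.map_singleton, upd_y _ h1]
      rcases v with _ | ⟨v0, v⟩
      · simp
      · rcases u with _ | ⟨u0, u⟩
        · simpa using h0
        · simp only [List.cons_append, List.rotate_cons_succ, List.rotate_zero, List.map_cons,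
            List.map_append, List.headD_cons, List.cons.injEq, true_and] at h0 ⊢
          have e : (f (α u0) :: List.map (fun d => f (α d)) u) ++
              (f (α v0) :: List.map (fun d => f (α d)) v) =
              (List.map f u ++ [f v0]) ++ (List.map f v ++ [f u0]) := by simpa using h0
          exact (List.append_inj e (by simp)).2
    · exact (hf l (by simp [hl])).upd _ _ h3 h4 fun d hd =>
        List.mem_flatten.2 ⟨l, by simp [hl], hd⟩
  · have := Finset.card_le_card (image_upd f (((v ++ u).map f).headD 0) (((u ++ v).map f).headD 0)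
      (L' := ((x :: u) :: (α x :: v) :: R).flatten) h4 fun d hd => by simp at hd ⊢; tauto)
    simp only [List.flatten_cons, List.length_append, List.length_cons, List.countP_cons] at hc this ⊢
    simp only [ne_eq, reduceCtorEq, not_false_eq_true, decide_true, if_true] at hc ⊢
    split_ifs at hc <;> omega

theorem Eu.del {x : D} {w : List D} {R : List (List D)} {α : D → D}
    (hm : Mt (x :: α x :: (w :: R).flatten) α)
    (h : Eu (w :: R) α) : Eu ((x :: α x :: w) :: R) α := by
  obtain ⟨h1, h2, h3, h4⟩ := hm.fresh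
  obtain ⟨f, hf, hc⟩ := h
  have hw : ∀ d ∈ w, d ∈ (w :: R).flatten := fun d hd => by simp [hd]
  have h0 := hf w (by simp)
  obtain ⟨c, hcn⟩ := Infinite.exists_notMem_finset ((w :: R).flatten.toFinset.image f)
  refine ⟨upd f x (α x) ((w.map f).headD 0) c, fun l hl => ?_, ?_⟩
  · rcases List.mem_cons.1 hl with rfl | hl
    · unfold FC at h0 ⊢
      rw [List.rotate_cons_succ, List.rotate_zero, List.map_cons, List.map_cons, List.cons_append,
        List.map_cons, List.map_append,
        mapa_upd f _ _ h3 h4 hw, map_upd _ _ _ fun d hd => h4 d (hw d hd), h2, upd_x,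
        List.map_singleton, upd_x]
      rcases w with _ | ⟨w0, w⟩
      · simp
      · simpa using h0
    · exact (hf l (by simp [hl])).upd _ _ h3 h4 fun d hd =>
        List.mem_flatten.2 ⟨l, by simp [hl], hd⟩
  · have hs := image_upd f ((w.map f).headD 0) c
      (L' := ((x :: α x :: w) :: R).flatten) h4 fun d hd => by simp at hd ⊢; tauto
    have hs' : insert c ((w :: R).flatten.toFinset.image f) ⊆
        ((x :: α x :: w) :: R).flatten.toFinset.image (upd f x (α x) ((w.map f).headD 0) c) :=
      Finset.insert_subset (Finset.mem_image.2 ⟨α x, by simp, upd_y _ h1 _ _⟩) hs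
    have := Finset.card_le_card hs'
    rw [Finset.card_insert_of_notMem hcn] at this
    simp only [List.flatten_cons, List.length_append, List.length_cons, List.countP_cons] at hc this ⊢
    simp only [ne_eq, reduceCtorEq, not_false_eq_true, decide_true, if_true] at hc ⊢
    split_ifs at hc <;> omega

end Pool.Agent.P.MP_bb0bfc_al.UP
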