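import Pool.Agent.P.MP_bb0bfc_al.UP.Lift

namespace Pool.Agent.P.MP_bb0bfc_al.UP

/-- types of holes: a free word, the test word, a relator or its inverse -/
inductive T : Type
  | fr (g : List (Fin 4)) : T
  | ww : T
  | cell (g : List (Fin 4)) (ε : Bool) : T

def T.free : T → List (Fin 4)
  | .fr g => g
  | .ww => []
  | .cell g _ => g

def T.q : T → ℕ
  | .fr _ => 0
  | .ww => 1
  | .cell _ _ => 8

def T.K : T → ℕ
  | .fr _ => 0
  | .ww => 480
  | .cell g _ => 80 * g.length + 1400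

def T.tag : T → Option (List (Fin 4))
  | .cell g _ => some g
  | _ => none

def T.eps : T → Bool
  | .cell _ ε => ε
  | _ => false

abbrev Z : Type := ℕ × ℕ × ℕ

def nm (r : ℕ) : ℕ := r % 2 + 2 * (r / 4)
def bwd (r : ℕ) : Bool := decide (r / 2 % 2 = 1)
def ex (τ : T) (r s : ℕ) : ℕ := Encodable.encode (τ.tag, nm r, s) + 1
def blab (e o : ℕ) : Fin 4 :=
  if o = 0 then 2 else if o = e + 1 then 3 else if o % 2 = 0 then 0 else 1
def zlab (τ : T) (z : Z) : Fin 4 :=
  if z.1 = 8 then τ.free.getD z.2.2 0 else blab (ex τ z.1 z.2.1) z.2.2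
def blk (τ : T) (r s : ℕ) : List Z := (List.range (ex τ r s + 2)).map fun o => (r, s, o)
def fw (τ : T) (r k : ℕ) : List Z := (List.range k).flatMap (blk τ r)
def side (τ : T) (r : ℕ) : List Z := if bwd r then (fw τ r τ.K).reverse else fw τ r τ.K
def base (τ : T) : List Z :=
  (List.range τ.free.length).map (fun o => (8, 0, o)) ++ (List.range τ.q).flatMap (side τ)
def L0 (τ : T) : List Z := if τ.eps then (base τ).reverse else base τ
def wd (τ : T) : W (Fin 4) := ev ((L0 τ).map (zlab τ))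
def dir (τ : T) (r : ℕ) : Bool := xor (bwd r) τ.eps

theorem T.q_le (τ : T) : τ.q ≤ 8 := by cases τ <;> simp [T.q]

theorem mem_blk {τ : T} {r s : ℕ} {z : Z} :
    z ∈ blk τ r s ↔ z.1 = r ∧ z.2.1 = s ∧ z.2.2 < ex τ r s + 2 := by
  obtain ⟨a, b, c⟩ := z
  simp only [blk, List.mem_map, List.mem_range, Prod.mk.injEq]
  constructor
  · rintro ⟨o, h, rfl, rfl, rfl⟩; exact ⟨rfl, rfl, h⟩
  · rintro ⟨rfl, rfl, h⟩; exact ⟨c, h, rfl, rfl, rfl⟩

theorem mem_fw {τ : T} {r k : ℕ} {z : Z} :
    z ∈ fw τ r k ↔ z.1 = r ∧ z.2.1 < k ∧ z.2.2 < ex τ r z.2.1 + 2 := by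
  simp only [fw, List.mem_flatMap, List.mem_range, mem_blk]
  constructor
  · rintro ⟨s, h, h1, rfl, h2⟩; exact ⟨h1, h, h2⟩
  · rintro ⟨h1, h, h2⟩; exact ⟨_, h, h1, rfl, h2⟩

theorem mem_side {τ : T} {r : ℕ} {z : Z} :
    z ∈ side τ r ↔ z.1 = r ∧ z.2.1 < τ.K ∧ z.2.2 < ex τ r z.2.1 + 2 := by
  unfold side
  split_ifs <;> simp [mem_fw]

theorem mem_base {τ : T} {z : Z} : z ∈ base τ ↔
    (z.1 = 8 ∧ z.2.1 = 0 ∧ z.2.2 < τ.free.length) ∨
      (z.1 < τ.q ∧ z.2.1 < τ.K ∧ z.2.2 < ex τ z.1 z.2.1 + 2) := by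
  obtain ⟨a, b, c⟩ := z
  simp only [base, List.mem_append, List.mem_map, List.mem_range, Prod.mk.injEq, List.mem_flatMap,
    mem_side]
  apply or_congr
  · constructor
    · rintro ⟨o, h, rfl, rfl, rfl⟩; exact ⟨rfl, rfl, h⟩
    · rintro ⟨rfl, rfl, h⟩; exact ⟨c, h, rfl, rfl, rfl⟩
  · constructor
    · rintro ⟨r, h, rfl, h2⟩; exact ⟨h, h2⟩
    · rintro ⟨h, h2⟩; exact ⟨_, h, rfl, h2⟩

theorem mem_L0 {τ : T} {z : Z} : z ∈ L0 τ ↔ z ∈ base τ := by
  unfold L0
  split_ifs <;> simp

theorem nodup_fw (τ : T) (r k : ℕ) : (fw τ r k).Nodup := by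
  unfold fw
  rw [List.nodup_flatMap]
  refine ⟨fun s _ => List.nodup_range.map fun a b e => by simpa using e, ?_⟩
  refine List.nodup_range.imp fun {a b} hab => ?_
  intro z h1 h2
  exact hab ((mem_blk.1 h1).2.1.symm.trans (mem_blk.1 h2).2.1)

theorem nodup_side (τ : T) (r : ℕ) : (side τ r).Nodup := by
  unfold side
  split_ifs <;> simp [nodup_fw]

theorem nodup_base (τ : T) : (base τ).Nodup := by
  unfold base
  rw [List.nodup_append]
  refine ⟨List.nodup_range.map fun a b e => by simpa using e, ?_, ?_⟩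
  · rw [List.nodup_flatMap]
    refine ⟨fun s _ => nodup_side _ _, List.nodup_range.imp fun {a b} hab => ?_⟩
    intro z h1 h2
    exact hab ((mem_side.1 h1).1.symm.trans (mem_side.1 h2).1)
  · intro a ha b hb e
    subst e
    obtain ⟨o, -, rfl⟩ := List.mem_map.1 ha
    obtain ⟨r, hr, h⟩ := List.mem_flatMap.1 hb
    have := (mem_side.1 h).1
    have := τ.q_le
    simp only [List.mem_range] at *
    omega

theorem nodup_L0 (τ : T) : (L0 τ).Nodup := by
  unfold L0
  split_ifs <;> simp [nodup_base]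

theorem infix_flatMap {a b : Type} (f : a → List b) {l : List a} {x : a} (h : x ∈ l) :
    f x <:+: l.flatMap f := by
  obtain ⟨u, v, rfl⟩ := List.append_of_mem h
  exact ⟨u.flatMap f, v.flatMap f, by simp⟩

theorem range_pair {n o : ℕ} (h : o + 1 < n) : [o, o + 1] <:+: List.range n := by
  obtain ⟨m, rfl⟩ : ∃ m, n = o + 2 + m := ⟨n - (o + 2), by omega⟩
  rw [List.range_add, List.range_succ, List.range_succ]
  exact ⟨List.range o, _, by simp; rfl⟩

theorem adj_in {τ : T} {r s o k : ℕ} (hs : s < k) (ho : o < ex τ r s + 1) :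
    [(r, s, o), (r, s, o + 1)] <:+: fw τ r k :=
  List.IsInfix.trans ((range_pair (n := ex τ r s + 2) (by omega)).map fun o => ((r, s, o) : Z))
    (infix_flatMap (blk τ r) (List.mem_range.2 hs))

theorem adj_jn {τ : T} {r s k : ℕ} (hs : s + 1 < k) :
    [(r, s, ex τ r s + 1), (r, s + 1, 0)] <:+: fw τ r k := by
  obtain ⟨u, v, e⟩ := range_pair hs
  unfold fw
  rw [← e]
  simp only [List.flatMap_append, List.flatMap_cons, List.flatMap_nil, List.append_nil]
  have e1 : blk τ r s = (List.range (ex τ r s + 1)).map (fun o => (r, s, o)) ++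
      [(r, s, ex τ r s + 1)] := by simp [blk, List.range_succ]
  have e2 : ∃ m, blk τ r (s + 1) = (r, s + 1, 0) :: m := by
    unfold blk
    rw [List.range_succ_eq_map]
    exact ⟨_, rfl⟩
  obtain ⟨m, e2⟩ := e2
  rw [e1, e2]
  exact ⟨u.flatMap (blk τ r) ++ (List.range (ex τ r s + 1)).map (fun o => (r, s, o)),
    m ++ v.flatMap (blk τ r), by simp⟩

theorem adj_L0 {τ : T} {r : ℕ} {x y : Z} (hr : r < τ.q) (h : [x, y] <:+: fw τ r τ.K) :
    (if dir τ r then [y, x] else [x, y]) <:+: L0 τ := by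
  have h1 : side τ r <:+: base τ :=
    (infix_flatMap (side τ) (List.mem_range.2 hr)).trans (List.suffix_append _ _).isInfix
  have h2 : (if bwd r then [y, x] else [x, y]) <:+: base τ := by
    refine List.IsInfix.trans ?_ h1
    unfold side
    split_ifs
    · exact List.reverse_infix.2 h
    · exact h
  unfold L0 dir
  have h3 := List.reverse_infix.2 h2
  cases hb : bwd r <;> cases he : τ.eps <;> simp_all

theorem blab_two {e o : ℕ} : blab e o = 2 ↔ o = 0 := by
  unfold blab; split_ifs <;> simp_all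

theorem blab_three {e o : ℕ} : blab e o = 3 ↔ o = e + 1 := by
  unfold blab; split_ifs <;> simp_all

theorem blab_ne {e o : ℕ} (h : o < e + 1) : blab e o ≠ blab e (o + 1) := by
  unfold blab; split_ifs <;> first | decide | omega | simp_all

theorem ex_inj {τ τ' : T} {r r' s s' : ℕ} (h : ex τ r s = ex τ' r' s') :
    τ.tag = τ'.tag ∧ nm r = nm r' ∧ s = s' := by
  have := Encodable.encode_injective (Nat.succ_injective h)
  simpa using this

theorem wd_fr (g : List (Fin 4)) : wd (.fr g) = ev g := by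
  unfold wd
  congr 1
  apply List.ext_getElem <;> simp [L0, base, T.eps, T.free, T.q, zlab]
  intro i h; simp [h]

theorem wd_true (g : List (Fin 4)) : wd (.cell g true) = (wd (.cell g false))⁻¹ := by
  unfold wd
  rw [← ev_reverse, ← List.map_reverse]
  rfl

theorem wd_cell (g : List (Fin 4)) :
    ∃ a b c d : W (Fin 4), wd (.cell g false) = ev g * (a * b * a⁻¹ * b⁻¹ * (c * d * c⁻¹ * d⁻¹)) := by
  let τ : T := .cell g false
  let X : ℕ → W (Fin 4) := fun r => ev ((fw τ r τ.K).map (zlab τ))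
  have hX : ∀ r r', r ≠ 8 → r' ≠ 8 → nm r = nm r' → X r = X r' := by
    intro r r' h h' e
    have : ∀ s, ex τ r s = ex τ r' s := fun s => by simp [ex, e]
    simp only [X, fw, List.map_flatMap, blk, List.map_map, this]
    congr 2
    ext1 s
    exact List.map_congr_left fun o _ => by simp [zlab, h, h', this]
  have hs : ∀ r, ev ((side τ r).map (zlab τ)) = if bwd r then (X r)⁻¹ else X r := by
    intro r
    unfold side
    split_ifs
    · rw [List.map_reverse, ev_reverse]
    · rfl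
  refine ⟨X 0, X 1, X 4, X 5, ?_⟩
  have e0 : ((List.range τ.free.length).map fun o => ((8, 0, o) : Z)).map (zlab τ) = g := by
    apply List.ext_getElem <;> simp [τ, T.free, zlab]
    intro i h; simp [h]
  show ev ((base τ).map (zlab τ)) = _
  unfold base
  rw [List.map_append, ev_append, e0]
  have e8 : List.range τ.q = [0, 1, 2, 3, 4, 5, 6, 7] := rfl
  simp only [e8, List.flatMap_cons, List.flatMap_nil, List.map_append, ev_append, hs,
    List.map_nil, ev_nil]
  rw [hX 2 0 (by decide) (by decide) rfl, hX 3 1 (by decide) (by decide) rfl,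
    hX 6 4 (by decide) (by decide) rfl, hX 7 5 (by decide) (by decide) rfl]
  simp [bwd, mul_assoc]

end Pool.Agent.P.MP_bb0bfc_al.UP
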